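import Pool.Agent.H62.BM.TopE
import Pool.Agent.H62.BM.EpsE

/-!
# [H42 WM F] the phase (statement: helper62)
-/

set_option autoImplicit false

open scoped Classical

noncomputable section

namespace H62.BM

open H62.BL

section E

variable {P Q L : Type} [Group P] [Group Q] [MulAction Q L] [Fintype L] {p n : ℕ} [NeZero p]
  (D : LG p n P Q L)

private theorem phs_gl {m : ℕ} {I L' : Type} (t : Fin (m + 1) → Lr I L') :
    ((List.ofFn t).map Lr.i).getLast? = some (t (Fin.last m)).i := by
  rw [List.ofFn_succ', List.concat_eq_append, List.map_append]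
  simp

private theorem phs_mem {m : ℕ} {I L' : Type} (t : Fin (m + 1) → Lr I L') (k : I) :
    (∀ i, (t i).i ≠ k) ↔ ∀ a ∈ List.ofFn t, a.i ≠ k := by
  rw [List.forall_mem_ofFn_iff]

include D in
private theorem phs_succ (k : Fin (n + 2)) (hk : k ≠ 0) (l : L) (w : List (Lr (Fin (n + 2)) L))
    (hw : w.length = n + 1) (hnd : (w.map Lr.i).Nodup) (C : Prop) [Decidable C]
    (hC : C ↔ ((∀ a ∈ w, a.i ≠ k) ∧ (w.map Lr.i).getLast? = some 0)) :
    (if C then D.ch l (D.rw w) else 0) =
      -(D.eps (w ++ [⟨k, l⟩]) - D.eps (⟨k, l⟩ :: w)) := by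
  have h1 : D.eps (w ++ [⟨k, l⟩]) = 0 := by
    cases w with
    | nil => simp at hw
    | cons a w =>
      rw [List.cons_append, LG.eps, if_neg]
      rintro ⟨-, -, h⟩
      rw [List.map_append, List.map_cons, List.map_nil, List.getLast?_concat] at h
      exact hk (Option.some.inj h)
  rw [h1, zero_sub, neg_neg, LG.eps]
  have h2 : C ↔
      ((List.map Lr.i (⟨k, l⟩ :: w)).Nodup ∧ w.length = n + 1 ∧ (w.map Lr.i).getLast? = some 0) := by
    rw [hC, List.map_cons, List.nodup_cons]
    constructor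
    · rintro ⟨h3, h4⟩
      refine ⟨⟨?_, hnd⟩, hw, h4⟩
      intro h5
      rw [List.mem_map] at h5
      obtain ⟨a, ha, hak⟩ := h5
      exact h3 a ha hak
    · rintro ⟨⟨h3, -⟩, -, h4⟩
      exact ⟨fun a ha hak => h3 (List.mem_map.2 ⟨a, ha, hak⟩), h4⟩
  by_cases h3 : C
  · rw [if_pos h3, if_pos (h2.1 h3)]
  · rw [if_neg h3, if_neg (fun h4 => h3 (h2.2 h4))]

include D in
private theorem phs_zero (l : L) (w : List (Lr (Fin (n + 2)) L))
    (hw : w.length = n + 1) (hnd : (w.map Lr.i).Nodup) (C : Prop) [Decidable C]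
    (hC : C ↔ ((∀ a ∈ w, a.i ≠ 0) ∧ (w.map Lr.i).getLast? = some 1)) :
    D.kw l w = (if C then D.ch l (D.rw w) else 0) +
      (D.eps (w ++ [⟨0, l⟩]) - D.eps (⟨0, l⟩ :: w)) := by
  have h1 : D.eps (⟨0, l⟩ :: w) = 0 := by
    rw [LG.eps, if_neg]
    rintro ⟨h2, -, h3⟩
    rw [List.map_cons, List.nodup_cons] at h2
    exact h2.1 (List.mem_of_getLast? h3)
  rw [h1, sub_zero]
  cases w with
  | nil => simp at hw
  | cons a w =>
    have hwl : w.length = n := by
      rw [List.length_cons] at hw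
      omega
    by_cases h0 : ∀ b ∈ a :: w, b.i ≠ 0
    · have h2 : (List.map Lr.i (a :: (w ++ [⟨0, l⟩]))).Nodup := by
        have h3 : a :: (w ++ [⟨0, l⟩]) = (a :: w) ++ [⟨0, l⟩] := rfl
        rw [h3, List.map_append, List.nodup_append]
        refine ⟨hnd, by simp, ?_⟩
        intro x hx y hy
        rw [List.mem_map] at hx
        obtain ⟨b, hb, rfl⟩ := hx
        simp only [List.map_cons, List.map_nil, List.mem_singleton] at hy
        rw [hy]
        exact h0 b hb
      have e1 : D.eps (a :: w ++ [⟨0, l⟩]) = D.ch a.l (D.rw (w ++ [⟨0, l⟩])) := by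
        rw [List.cons_append, LG.eps]
        refine if_pos ⟨h2, by simp [hwl], ?_⟩
        rw [List.map_append, List.map_cons, List.map_nil, List.getLast?_concat]
      have e2 : D.kw l (a :: w) = (if ((a :: w).map Lr.i).getLast? = some 1 then
          D.ch l (D.rw (a :: w)) else 0) + D.ch a.l (D.rw (w ++ [⟨0, l⟩])) := by
        rw [LG.kw]
        exact if_pos ⟨hnd, hwl, h0⟩
      rw [e1, e2]
      congr 1
      by_cases h4 : ((a :: w).map Lr.i).getLast? = some 1
      · rw [if_pos h4, if_pos (hC.2 ⟨h0, h4⟩)]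
      · rw [if_neg h4, if_neg (fun h5 => h4 (hC.1 h5).2)]
    · have e1 : D.eps (a :: w ++ [⟨0, l⟩]) = 0 := by
        rw [List.cons_append, LG.eps]
        refine if_neg ?_
        rintro ⟨h2, -, -⟩
        apply h0
        intro b hb hb0
        have h3 : a :: (w ++ [⟨0, l⟩]) = (a :: w) ++ [⟨0, l⟩] := rfl
        rw [h3, List.map_append, List.nodup_append] at h2
        exact h2.2.2 b.i (List.mem_map.2 ⟨b, hb, rfl⟩) 0 (by simp) hb0
      have e2 : D.kw l (a :: w) = 0 := by
        rw [LG.kw]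
        exact if_neg (fun h => h0 h.2.2)
      rw [e1, e2, if_neg (fun h => h0 (hC.1 h).1), add_zero]

/-- THE PHASE: if reciprocity holds for the words `z k b`, the sum of the top coefficients of all faces is the
difference of the values of `kp` at the two words of the variable `0` -/
theorem phase {Gn : Type} (kd : Gn → Option (Fin (n + 2) × Bool)) (bs : Gn → P)
    (g : Fin (n + 2) → P) (lam : Fin (n + 2) → L) (hg : ∀ j, g j * (D.s (lam j))⁻¹ ∈ D.f 2)
    (z : Fin (n + 2) → Bool → FreeGroup Gn)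
    (hrec : ∑ k, ∑ b : Bool, (if b then 1 else -1) * ∑ t : Fin (n + 1) → Lr (Fin (n + 2)) L,
      (rel (WN Q L Set.univ (n + 1)) kd (fun x => D.pi (bs x)) lam (z k b) :
        UG Q _ (ZMod p) _).c (List.ofFn t) *
        (D.eps (List.ofFn t ++ [⟨k, lam k⟩]) - D.eps (⟨k, lam k⟩ :: List.ofFn t)) = 0) :
    ∑ k, ∑ b : Bool, (if b then 1 else -1) *
        D.ch (lam k) (tp (n + 1) (fun e => cub kd bs g (z k b) (k.insertNth b e))) =
      ∑ b : Bool, (if b then 1 else -1) * D.kp (lam 0)
        (rel (WN Q L Set.univ (n + 1)) kd (fun x => D.pi (bs x)) lam (z 0 b) :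
          UG Q _ (ZMod p) _).c := by
  set r : Fin (n + 2) → Bool → List (Lr (Fin (n + 2)) L) → ZMod p := fun k b =>
    (rel (WN Q L Set.univ (n + 1)) kd (fun x => D.pi (bs x)) lam (z k b) :
      UG Q _ (ZMod p) _).c with hr
  set H : Fin (n + 2) → Bool → ZMod p := fun k b => ∑ t : Fin (n + 1) → Lr (Fin (n + 2)) L,
    r k b (List.ofFn t) *
      (D.eps (List.ofFn t ++ [⟨k, lam k⟩]) - D.eps (⟨k, lam k⟩ :: List.ofFn t)) with hH
  have hrec' : ∑ k, ∑ b : Bool, (if b then (1 : ZMod p) else -1) * H k b = 0 := hrec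
  have hout : ∀ k b w, w ∉ (WN Q L (Set.univ : Set (Fin (n + 2))) (n + 1)).s → r k b w = 0 :=
    fun k b w hw => UG.out _ w hw
  have hT := fun k b => top_lemma D kd bs g lam hg (z k b) k b (D.ch (lam k)) (D.ch_add (lam k))
  have h1 : ∀ k, k ≠ 0 → ∀ b : Bool,
      D.ch (lam k) (tp (n + 1) (fun e => cub kd bs g (z k b) (k.insertNth b e))) = -H k b := by
    intro k hk b
    rw [hT k b, hH]
    simp only
    rw [← Finset.sum_neg_distrib]
    refine Finset.sum_congr rfl fun t _ => ?_
    by_cases hm : List.ofFn t ∈ (WN Q L (Set.univ : Set (Fin (n + 2))) (n + 1)).s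
    · have h3 : k.succAbove (0 : Fin (n + 1)) = 0 := Fin.succAbove_ne_zero_zero hk
      have h2 := phs_succ D k hk (lam k) (List.ofFn t) (List.length_ofFn) hm.2.1
        ((∀ i, (t i).i ≠ k) ∧ (t (Fin.last n)).i = k.succAbove 0)
        (by rw [phs_gl, ← phs_mem, h3, Option.some_inj])
      rw [← mul_neg, ← h2, mul_ite, mul_zero]
    · rw [hout k b _ hm, zero_mul, neg_zero]
      split_ifs
      · have h5 := hout k b _ hm
        rw [hr] at h5
        simp only at h5
        rw [h5, zero_mul]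
      · rfl
  have h0 : ∀ b : Bool, D.kp (lam 0) (r 0 b) =
      D.ch (lam 0) (tp (n + 1) (fun e => cub kd bs g (z 0 b) ((0 : Fin (n + 2)).insertNth b e))) +
        H 0 b := by
    intro b
    rw [hT 0 b, hH, LG.kp]
    simp only
    rw [← Finset.sum_add_distrib]
    refine Finset.sum_congr rfl fun t _ => ?_
    by_cases hm : List.ofFn t ∈ (WN Q L (Set.univ : Set (Fin (n + 2))) (n + 1)).s
    · have h3 : (0 : Fin (n + 2)).succAbove (0 : Fin (n + 1)) = 1 := rfl
      have h2 := phs_zero D (lam 0) (List.ofFn t) (List.length_ofFn) hm.2.1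
        ((∀ i, (t i).i ≠ 0) ∧ (t (Fin.last n)).i = (0 : Fin (n + 2)).succAbove 0)
        (by rw [phs_gl, ← phs_mem, h3, Option.some_inj])
      rw [h2, mul_add, mul_ite, mul_zero]
    · rw [hout 0 b _ hm, zero_mul, zero_mul, add_zero]
      split_ifs
      · have h5 := hout 0 b _ hm
        rw [hr] at h5
        simp only at h5
        rw [h5, zero_mul]
      · rfl
  rw [Fin.sum_univ_succ] at hrec' ⊢
  have h2 : ∑ i : Fin (n + 1), ∑ b : Bool, (if b then (1 : ZMod p) else -1) *
      D.ch (lam i.succ) (tp (n + 1) (fun e => cub kd bs g (z i.succ b) (i.succ.insertNth b e))) =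
      -∑ i : Fin (n + 1), ∑ b : Bool, (if b then (1 : ZMod p) else -1) * H i.succ b := by
    rw [← Finset.sum_neg_distrib]
    refine Finset.sum_congr rfl fun i _ => ?_
    rw [← Finset.sum_neg_distrib]
    refine Finset.sum_congr rfl fun b _ => ?_
    rw [h1 _ (Fin.succ_ne_zero i) b, mul_neg]
  have h3 : ∑ b : Bool, (if b then (1 : ZMod p) else -1) * D.kp (lam 0) (r 0 b) =
      ∑ b : Bool, (if b then (1 : ZMod p) else -1) *
        D.ch (lam 0) (tp (n + 1) (fun e => cub kd bs g (z 0 b) ((0 : Fin (n + 2)).insertNth b e))) +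
      ∑ b : Bool, (if b then (1 : ZMod p) else -1) * H 0 b := by
    rw [← Finset.sum_add_distrib]
    refine Finset.sum_congr rfl fun b _ => ?_
    rw [h0 b, mul_add]
  rw [h2, h3]
  linear_combination -hrec'

end E

end H62.BM
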