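import Pool.Agent.H42.WM.WrdB

/-!
# [H42 WM H] commutators in `UG` (statements: helper62)
-/

set_option autoImplicit false

open scoped Classical

noncomputable section

set_option linter.unusedSectionVars false

namespace H62.BM

open H62.BL

section words33

variable {α R : Type} [CommRing R]

private theorem cv_sum (w : List α) : ∀ c c' : List α → R,
    cv c c' w = ∑ i ∈ Finset.range (w.length + 1), c (w.take i) * c' (w.drop i) := by
  induction w with
  | nil =>
    intro c c'
    rw [cv]
    simp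
  | cons a w ih =>
    intro c c'
    rw [cv, ih, List.length_cons, Finset.sum_range_succ' _ (w.length + 1), add_comm]
    rfl

private theorem cv_ps (c c' : List α → R) (w : List α) (hw : w ≠ []) :
    cv c c' w = c [] * c' w + c w * c' [] +
      ∑ i ∈ Finset.Ico 1 w.length, c (w.take i) * c' (w.drop i) := by
  have h1 : 0 < w.length := List.length_pos_iff.2 hw
  rw [cv_sum, Finset.sum_range_succ, Finset.range_eq_Ico, Finset.sum_eq_sum_Ico_succ_bot h1,
    List.take_length, List.drop_length, List.take_zero, List.drop_zero]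
  ring

private theorem cv_ne_zero (c c' : List α → R) (w : List α) (h : cv c c' w ≠ 0) :
    ∃ u v, u ++ v = w ∧ c u ≠ 0 ∧ c' v ≠ 0 := by
  rw [cv_sum] at h
  obtain ⟨i, _, h2⟩ := Finset.exists_ne_zero_of_sum_ne_zero h
  exact ⟨w.take i, w.drop i, List.take_append_drop i w, left_ne_zero_of_mul h2,
    right_ne_zero_of_mul h2⟩

private theorem br_nil (X : List α) : (br X [] : R) = 0 := by
  match X with
  | [] => rfl
  | [a] =>
    change (el a [] : R) = 0
    exact if_neg (by simp)
  | a :: b :: w =>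
    have h1 : (el a [] : R) = 0 := if_neg (by simp)
    change cv (el a) (br (b :: w)) [] - cv (br (b :: w)) (el a) [] = (0 : R)
    rw [cv, cv, h1, zero_mul, mul_zero, sub_zero]

private theorem br_supp (X : List α) : ∀ w : List α, (br X w : R) ≠ 0 → w.Perm X := by
  induction X with
  | nil => exact fun w h => absurd rfl h
  | cons a X ih =>
    intro w h
    cases X with
    | nil =>
      have h1 : w = [a] := by
        by_contra h2
        exact h (if_neg h2)
      rw [h1]
    | cons b X =>
      have h1 : (br (a :: b :: X) w : R) = cv (el a) (br (b :: X)) w - cv (br (b :: X)) (el a) w := rfl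
      have hel : ∀ u : List α, (el a u : R) ≠ 0 → u = [a] := by
        intro u hu
        by_contra h2
        exact hu (if_neg h2)
      by_cases h2 : (cv (el a) (br (b :: X)) w : R) = 0
      · have h3 : (cv (br (b :: X)) (el a) w : R) ≠ 0 := by
          intro h4
          rw [h1, h2, h4, sub_zero] at h
          exact h rfl
        obtain ⟨u, v, rfl, h4, h5⟩ := cv_ne_zero _ _ _ h3
        rw [hel v h5]
        exact (List.perm_append_comm).trans ((ih u h4).cons a)
      · obtain ⟨u, v, rfl, h4, h5⟩ := cv_ne_zero _ _ _ h2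
        rw [hel u h4]
        exact (ih v h5).cons a

variable {Q : Type} [Group Q] [MulAction Q α] {W : WSet Q α}

private theorem ce_qa_one (c : List α → R) : qa (1 : Q) c = c := by
  funext w
  unfold qa
  congr 1
  simp

/-- the projection to `Q` -/
private def uq : UG Q α R W →* Q where
  toFun a := a.q
  map_one' := rfl
  map_mul' _ _ := rfl

private theorem mul_c_one (a b : UG Q α R W) (ha : a.q = 1) (w : List α) (hw : w ∈ W.s) :
    (a * b).c w = cv a.c b.c w := by
  rw [ug_mul_c, ha, ce_qa_one, tr, if_pos hw]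

private theorem tr_mem (c : List α → R) (w : List α) (hw : w ∈ W.s) : tr W c w = c w :=
  if_pos hw

private theorem take_mem (w : List α) (hw : w ∈ W.s) (i : ℕ) : w.take i ∈ W.s :=
  W.left _ (w.drop i) (by rwa [List.take_append_drop])

private theorem drop_mem (w : List α) (hw : w ∈ W.s) (i : ℕ) : w.drop i ∈ W.s :=
  W.right (w.take i) _ (by rwa [List.take_append_drop])

private theorem ico {w : List α} {i : ℕ} (hi : i ∈ Finset.Ico 1 w.length) :
    w.take i ≠ [] ∧ w.drop i ≠ [] ∧ (w.take i).length = i ∧ (w.drop i).length = w.length - i := by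
  rw [Finset.mem_Ico] at hi
  refine ⟨?_, ?_, ?_, ?_⟩
  · apply List.length_pos_iff.1
    rw [List.length_take]
    omega
  · apply List.length_pos_iff.1
    rw [List.length_drop]
    omega
  · rw [List.length_take]
    omega
  · rw [List.length_drop]

/-- the coefficients of a commutator -/
private theorem comm_c (x y : UG Q α R W) (hx : x.q = 1) (hy : y.q = 1) (w : List α)
    (hw : w ∈ W.s) (hne : w ≠ []) : (x * y * x⁻¹ * y⁻¹).c w =
      ∑ i ∈ Finset.Ico 1 w.length, (x.c (w.take i) * y.c (w.drop i) - y.c (w.take i) * x.c (w.drop i) -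
        (x * y * x⁻¹ * y⁻¹).c (w.take i) * (y * x).c (w.drop i)) := by
  set z := x * y * x⁻¹ * y⁻¹ with hz
  have hzq : z.q = 1 := by
    have h1 : uq z = 1 := by
      have h2 : uq x = 1 := hx
      have h3 : uq y = 1 := hy
      rw [hz, map_mul, map_mul, map_mul, map_inv, map_inv, h2, h3]
      simp
    exact h1
  have h1 : z * (y * x) = x * y := by
    rw [hz]
    group
  have h2 : (z * (y * x)).c w = (x * y).c w := by rw [h1]
  rw [mul_c_one _ _ hzq _ hw, mul_c_one _ _ hx _ hw, cv_ps _ _ _ hne, cv_ps _ _ _ hne,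
    mul_c_one _ _ hy _ hw, cv_ps _ _ _ hne, z.one, x.one, y.one, (y * x).one] at h2
  rw [Finset.sum_sub_distrib, Finset.sum_sub_distrib]
  linear_combination h2

end words33

section lead33

variable {Q I L R : Type} [Group Q] [MulAction Q L] [CommRing R] {W : WSet Q (Lr I L)}

/-- all the nonempty words of `y` contain the indices of `X`, leading part `s br X` -/
private def Lead (y : UG Q (Lr I L) R W) (X : List (Lr I L)) (s : R) : Prop :=
  y.q = 1 ∧ (∀ w, w ≠ [] → y.c w ≠ 0 → ∀ x ∈ X, ∃ a ∈ w, a.i = x.i) ∧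
    ∀ w, w ≠ [] → w ∈ W.s → w.length ≤ X.length → y.c w = s * br X w

private theorem len_le (X w : List (Lr I L)) (hX : (X.map Lr.i).Nodup)
    (h : ∀ x ∈ X, ∃ a ∈ w, a.i = x.i) : X.length ≤ w.length := by
  have h1 : X.map Lr.i ⊆ w.map Lr.i := by
    intro j hj
    rw [List.mem_map] at hj ⊢
    obtain ⟨x, hx, rfl⟩ := hj
    exact h x hx
  have h2 := (hX.subperm h1).length_le
  rwa [List.length_map, List.length_map] at h2

private theorem lead_step (x y : UG Q (Lr I L) R W) (x0 : Lr I L) (X : List (Lr I L))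
    (hX : X ≠ []) (s s' : R) (hnd : ((x0 :: X).map Lr.i).Nodup) (hx : Lead x [x0] s)
    (hy : Lead y X s') : Lead (x * y * x⁻¹ * y⁻¹) (x0 :: X) (s * s') := by
  obtain ⟨hx1, hx2, hx3⟩ := hx
  obtain ⟨hy1, hy2, hy3⟩ := hy
  set z := x * y * x⁻¹ * y⁻¹ with hz
  have hzq : z.q = 1 := by
    have h1 : uq z = 1 := by
      have h2 : uq x = 1 := hx1
      have h3 : uq y = 1 := hy1
      rw [hz, map_mul, map_mul, map_mul, map_inv, map_inv, h2, h3]
      simp
    exact h1
  have hXnd : (X.map Lr.i).Nodup := by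
    rw [List.map_cons] at hnd
    exact (List.nodup_cons.1 hnd).2
  have hform := comm_c x y hx1 hy1
  rw [← hz] at hform
  have hz2 : ∀ k : ℕ, ∀ w : List (Lr I L), w.length = k → w ≠ [] → z.c w ≠ 0 →
      ∀ a ∈ x0 :: X, ∃ a' ∈ w, a'.i = a.i := by
    intro k
    induction k using Nat.strong_induction_on with
    | _ k ih =>
      intro w hk hne hzw
      have hw : w ∈ W.s := by
        by_contra h
        exact hzw (z.out w h)
      rw [hform w hw hne] at hzw
      obtain ⟨i, hi, h1⟩ := Finset.exists_ne_zero_of_sum_ne_zero hzw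
      obtain ⟨ht, hd, htl, hdl⟩ := ico hi
      rw [Finset.mem_Ico] at hi
      have htw : ∀ a ∈ w.take i, a ∈ w := fun a ha => List.mem_of_mem_take ha
      have hdw : ∀ a ∈ w.drop i, a ∈ w := fun a ha => List.mem_of_mem_drop ha
      by_cases h2 : x.c (w.take i) * y.c (w.drop i) = 0
      · by_cases h3 : y.c (w.take i) * x.c (w.drop i) = 0
        · have h4 : z.c (w.take i) * (y * x).c (w.drop i) ≠ 0 := by
            intro h5
            apply h1
            rw [h2, h3, h5, sub_zero, sub_zero]
          intro a ha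
          obtain ⟨a', ha', h6⟩ := ih i (by omega) (w.take i) htl ht (left_ne_zero_of_mul h4) a ha
          exact ⟨a', htw a' ha', h6⟩
        · intro a ha
          rcases List.mem_cons.1 ha with rfl | ha
          · obtain ⟨a', ha', h6⟩ := hx2 _ hd (right_ne_zero_of_mul h3) a (by simp)
            exact ⟨a', hdw a' ha', h6⟩
          · obtain ⟨a', ha', h6⟩ := hy2 _ ht (left_ne_zero_of_mul h3) a ha
            exact ⟨a', htw a' ha', h6⟩
      · intro a ha
        rcases List.mem_cons.1 ha with rfl | ha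
        · obtain ⟨a', ha', h6⟩ := hx2 _ ht (left_ne_zero_of_mul h2) a (by simp)
          exact ⟨a', htw a' ha', h6⟩
        · obtain ⟨a', ha', h6⟩ := hy2 _ hd (right_ne_zero_of_mul h2) a ha
          exact ⟨a', hdw a' ha', h6⟩
  refine ⟨hzq, fun w hne hzw => hz2 w.length w rfl hne hzw, ?_⟩
  intro w hne hw hlen
  rw [List.length_cons] at hlen
  obtain ⟨b, X', hbX⟩ := List.exists_cons_of_ne_nil hX
  have hbr : (br (x0 :: X) w : R) = cv (el x0) (br X) w - cv (br X) (el x0) w := by
    rw [hbX]
    rfl
  have he0 : (el x0 [] : R) = 0 := if_neg (by simp)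
  rw [hform w hw hne, hbr, cv_ps _ _ _ hne, cv_ps _ _ _ hne, he0, br_nil, zero_mul, zero_mul, mul_zero,
    mul_zero, add_zero, zero_add, zero_add, ← Finset.sum_sub_distrib, Finset.mul_sum]
  refine Finset.sum_congr rfl fun i hi => ?_
  obtain ⟨ht, hd, htl, hdl⟩ := ico hi
  rw [Finset.mem_Ico] at hi
  have hzt : z.c (w.take i) = 0 := by
    by_contra h1
    have h2 := len_le _ _ hnd (hz2 _ (w.take i) rfl ht h1)
    rw [List.length_cons] at h2
    omega
  have key : ∀ u v : List (Lr I L), u ≠ [] → v ≠ [] → u ∈ W.s → v ∈ W.s →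
      u.length + v.length = w.length → x.c u = s * el x0 u ∧ y.c v = s' * br X v ∨
        y.c v = 0 ∧ s' * br X v = 0 := by
    intro u v hu hv huW hvW hlen'
    have hul : 0 < u.length := List.length_pos_iff.2 hu
    have h2 : y.c v = s' * br X v := hy3 v hv hvW (by omega)
    by_cases hu1 : u.length = 1
    · exact Or.inl ⟨hx3 u hu huW (by simp [hu1]), h2⟩
    · have h3 : y.c v = 0 := by
        by_contra h4
        have h5 := len_le _ _ hXnd (hy2 v hv h4)
        omega
      exact Or.inr ⟨h3, by rw [← h2, h3]⟩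
  have e1 : x.c (w.take i) * y.c (w.drop i) = (s * el x0 (w.take i)) * (s' * br X (w.drop i)) := by
    rcases key _ _ ht hd (take_mem w hw i) (drop_mem w hw i) (by omega) with ⟨h1, h2⟩ | ⟨h1, h2⟩
    · rw [h1, h2]
    · rw [h1, h2, mul_zero, mul_zero]
  have e2 : y.c (w.take i) * x.c (w.drop i) = (s' * br X (w.take i)) * (s * el x0 (w.drop i)) := by
    rcases key _ _ hd ht (drop_mem w hw i) (take_mem w hw i) (by omega) with ⟨h1, h2⟩ | ⟨h1, h2⟩
    · rw [h1, h2]
    · rw [h1, h2, zero_mul, zero_mul]
  rw [e1, e2, hzt]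
  ring

end lead33

section E

variable {P Q L : Type} [Group P] [Group Q] [MulAction Q L] [Fintype L] {p n : ℕ} [NeZero p]
  (D : LG p n P Q L)

/-- the conjugates of `1 + s x`, `x = (j, l)` -/
theorem conj_lt {S : Set (Fin (n + 2))} (u : UG Q (Lr (Fin (n + 2)) L) (ZMod p) (WN Q L S (n + 1)))
    (j : Fin (n + 2)) (hj : j ∈ S) (l : L) (s : ZMod p) :
    (u * lt (⟨j, l⟩ : Lr (Fin (n + 2)) L) s * u⁻¹).q = 1 ∧
      (∀ w : List (Lr (Fin (n + 2)) L), w ≠ [] → (∀ a ∈ w, a.i ≠ j) →
        (u * lt (⟨j, l⟩ : Lr (Fin (n + 2)) L) s * u⁻¹).c w = 0) ∧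
      ∀ a : Lr (Fin (n + 2)) L,
        (u * lt (⟨j, l⟩ : Lr (Fin (n + 2)) L) s * u⁻¹).c [a] = if a = ⟨j, u.q • l⟩ then s else 0 := by
  set x : Lr (Fin (n + 2)) L := ⟨j, l⟩ with hx
  set t : UG Q (Lr (Fin (n + 2)) L) (ZMod p) (WN Q L S (n + 1)) := lt x s with ht
  set y := u * t * u⁻¹ with hy
  have hq : y.q = 1 := by
    have h1 : uq y = 1 := by
      have h2 : uq t = 1 := rfl
      rw [hy, map_mul, map_mul, map_inv, h2, mul_one, mul_inv_cancel]
    exact h1
  have hyu : y * u = u * t := by
    rw [hy]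
    group
  have htc : ∀ w : List (Lr (Fin (n + 2)) L), w ≠ [] → qa u.q t.c w ≠ 0 →
      w = [⟨j, u.q • l⟩] := by
    intro w hw h1
    have h2 : t.c (w.map fun a => (u.q)⁻¹ • a) ≠ 0 := h1
    have h3 : (w.map fun a => (u.q)⁻¹ • a) = [x] := by
      by_contra h4
      apply h2
      have h5 : (w.map fun a => (u.q)⁻¹ • a) ≠ [] := by
        rwa [Ne, List.map_eq_nil_iff]
      change tr (WN Q L S (n + 1)) (e1 + s • el x) (w.map fun a => (u.q)⁻¹ • a) = 0
      rw [tr]
      split_ifs
      · rw [Pi.add_apply, Pi.smul_apply, e1, el, if_neg h5, if_neg h4, smul_zero, add_zero]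
      · rfl
    obtain ⟨a, rfl, h5⟩ := List.map_eq_singleton_iff.1 h3
    have h6 : a = u.q • x := by
      rw [← h5, smul_inv_smul]
    rw [h6]
    rfl
  have htx : qa u.q t.c [⟨j, u.q • l⟩] = s := by
    have h1 : ([(⟨j, u.q • l⟩ : Lr (Fin (n + 2)) L)].map fun a => (u.q)⁻¹ • a) = [x] := by
      rw [List.map_singleton]
      have h2 : (⟨j, u.q • l⟩ : Lr (Fin (n + 2)) L) = u.q • x := rfl
      rw [h2, inv_smul_smul]
    change tr (WN Q L S (n + 1)) (e1 + s • el x)
      ([(⟨j, u.q • l⟩ : Lr (Fin (n + 2)) L)].map fun a => (u.q)⁻¹ • a) = s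
    rw [h1]
    rw [tr_mem]
    · rw [Pi.add_apply, Pi.smul_apply, e1, el, if_neg (by simp), if_pos rfl, zero_add, smul_eq_mul,
        mul_one]
    · refine ⟨by simp, by simp, ?_⟩
      intro a ha
      rw [List.mem_singleton] at ha
      rw [ha]
      exact hj
  have heq : ∀ w ∈ (WN Q L S (n + 1)).s, w ≠ [] → y.c w + ∑ i ∈ Finset.Ico 1 w.length,
      y.c (w.take i) * u.c (w.drop i) = qa u.q t.c w + ∑ i ∈ Finset.Ico 1 w.length,
        u.c (w.take i) * qa u.q t.c (w.drop i) := by
    intro w hw hne
    have h1 : (y * u).c w = (u * t).c w := by rw [hyu]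
    have h2 : qa u.q t.c [] = 1 := t.one
    rw [mul_c_one _ _ hq _ hw, ug_mul_c u t, tr_mem _ _ hw, cv_ps _ _ _ hne, cv_ps _ _ _ hne, y.one,
      u.one, h2] at h1
    linear_combination h1
  refine ⟨hq, ?_, ?_⟩
  · have key : ∀ k : ℕ, ∀ w : List (Lr (Fin (n + 2)) L), w.length = k → w ≠ [] →
        (∀ a ∈ w, a.i ≠ j) → y.c w = 0 := by
      intro k
      induction k using Nat.strong_induction_on with
      | _ k ih =>
        intro w hk hne hwj
        by_cases hw : w ∈ (WN Q L S (n + 1)).s
        · have h1 := heq w hw hne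
          have h2 : ∑ i ∈ Finset.Ico 1 w.length, y.c (w.take i) * u.c (w.drop i) = 0 := by
            refine Finset.sum_eq_zero fun i hi => ?_
            obtain ⟨ht', hd', htl, hdl⟩ := ico hi
            rw [Finset.mem_Ico] at hi
            rw [ih i (by omega) (w.take i) htl ht'
              (fun a ha => hwj a (List.mem_of_mem_take ha)), zero_mul]
          have h3 : ∀ v : List (Lr (Fin (n + 2)) L), v ≠ [] → (∀ a ∈ v, a.i ≠ j) →
              qa u.q t.c v = 0 := by
            intro v hv hvj
            by_contra h4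
            have h5 := htc v hv h4
            rw [h5] at hvj
            exact hvj _ (List.mem_singleton.2 rfl) rfl
          have h4 : ∑ i ∈ Finset.Ico 1 w.length, u.c (w.take i) * qa u.q t.c (w.drop i) = 0 := by
            refine Finset.sum_eq_zero fun i hi => ?_
            obtain ⟨ht', hd', htl, hdl⟩ := ico hi
            rw [h3 _ hd' (fun a ha => hwj a (List.mem_of_mem_drop ha)), mul_zero]
          rw [h2, h4, h3 w hne hwj, add_zero, add_zero] at h1
          exact h1
        · exact y.out w hw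
    exact fun w hne hwj => key w.length w rfl hne hwj
  · intro a
    by_cases hw : [a] ∈ (WN Q L S (n + 1)).s
    · have h1 := heq [a] hw (by simp)
      have h2 : Finset.Ico 1 [a].length = ∅ := by simp
      rw [h2, Finset.sum_empty, Finset.sum_empty, add_zero, add_zero] at h1
      rw [h1]
      split_ifs with h3
      · rw [h3]
        exact htx
      · by_contra h4
        have h5 := htc [a] (by simp) h4
        exact h3 (List.cons.inj h5).1
    · rw [y.out _ hw, if_neg]
      rintro rfl
      apply hw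
      refine ⟨by simp, by simp, ?_⟩
      intro a ha
      rw [List.mem_singleton] at ha
      rw [ha]
      exact hj

/-- iterated commutators of elements with leading terms `s x`, any order of the indices -/
theorem comm_topP (τ : Equiv.Perm (Fin (n + 1))) (l : Fin (n + 1) → L) (s : Fin (n + 1) → ZMod p)
    (y : Fin (n + 1) → UG Q (Lr (Fin (n + 2)) L) (ZMod p) (WN Q L {i | i ≠ 0} (n + 1)))
    (h1 : ∀ i, (y i).q = 1) (h2 : ∀ i (w : List (Lr (Fin (n + 2)) L)), w ≠ [] → (∀ a ∈ w, a.i ≠ (τ i).succ) → (y i).c w = 0)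
    (h3 : ∀ i (a : Lr (Fin (n + 2)) L), (y i).c [a] = if a = ⟨(τ i).succ, l i⟩ then s i else 0) :
    (rn (List.ofFn y)).q = 1 ∧ (rn (List.ofFn y)).c =
      e1 + (∏ i, s i) • br (List.ofFn fun i : Fin (n + 1) => (⟨(τ i).succ, l i⟩ : Lr (Fin (n + 2)) L)) := by
  set X : Fin (n + 1) → Lr (Fin (n + 2)) L := fun i => ⟨(τ i).succ, l i⟩ with hX
  have hinj : Function.Injective (fun i => (X i).i) := by
    intro i j hij
    have h4 : (τ i).succ = (τ j).succ := hij
    exact τ.injective (Fin.succ_injective _ h4)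
  have hlead : ∀ i, Lead (y i) [X i] (s i) := by
    intro i
    refine ⟨h1 i, ?_, ?_⟩
    · intro w hw hyw x hx
      rw [List.mem_singleton] at hx
      subst hx
      by_contra h4
      push Not at h4
      exact hyw (h2 i w hw h4)
    · intro w hw _ hlen
      rw [List.length_singleton] at hlen
      obtain ⟨a, rfl⟩ : ∃ a, w = [a] := by
        have h4 := List.length_pos_iff.2 hw
        exact List.length_eq_one_iff.1 (by omega)
      rw [h3]
      change _ = s i * (el (X i) [a] : ZMod p)
      rw [el]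
      by_cases h5 : a = X i
      · rw [if_pos h5, if_pos (by rw [h5]), mul_one]
      · rw [if_neg h5, if_neg (fun h6 => h5 (List.cons.inj h6).1), mul_zero]
  have main : ∀ T : List (Fin (n + 1)), T ≠ [] → T.Nodup →
      Lead (rn (T.map y)) (T.map X) (T.map s).prod := by
    intro T
    induction T with
    | nil => exact fun h => absurd rfl h
    | cons i T ih =>
      intro _ hnd
      by_cases hT : T = []
      · subst hT
        rw [List.map_singleton, List.map_singleton, List.map_singleton, List.prod_singleton]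
        exact hlead i
      · obtain ⟨k, T', hkT⟩ := List.exists_cons_of_ne_nil hT
        have h4 := ih hT (List.nodup_cons.1 hnd).2
        have h5 : rn ((i :: T).map y) = y i * rn (T.map y) * (y i)⁻¹ * (rn (T.map y))⁻¹ := by
          rw [hkT]
          rfl
        rw [h5, List.map_cons, List.map_cons, List.prod_cons]
        refine lead_step _ _ _ _ ?_ _ _ ?_ (hlead i) h4
        · rwa [Ne, List.map_eq_nil_iff]
        · have h6 : ((X i :: T.map X).map Lr.i) = (i :: T).map (fun i => (X i).i) := by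
            rw [List.map_cons, List.map_cons, List.map_map]
            rfl
          rw [h6]
          exact hnd.map hinj
  have h4 := main (List.finRange (n + 1)) (by simp) (List.nodup_finRange _)
  rw [← List.ofFn_eq_map, ← List.ofFn_eq_map, ← List.ofFn_eq_map, List.prod_ofFn] at h4
  obtain ⟨h5, -, h6⟩ := h4
  refine ⟨h5, ?_⟩
  funext w
  rw [Pi.add_apply, Pi.smul_apply, smul_eq_mul]
  by_cases hne : w = []
  · subst hne
    rw [(rn (List.ofFn y)).one, br_nil, mul_zero, add_zero, e1, if_pos rfl]
  · rw [e1, if_neg hne, zero_add]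
    by_cases hw : w ∈ (WN Q L {i : Fin (n + 2) | i ≠ 0} (n + 1)).s
    · exact h6 w hne hw (by rw [List.length_ofFn]; exact hw.1)
    · rw [(rn (List.ofFn y)).out w hw]
      symm
      by_contra h7
      have h8 : (br (List.ofFn X) w : ZMod p) ≠ 0 := right_ne_zero_of_mul h7
      have h9 := br_supp _ _ h8
      apply hw
      refine ⟨?_, ?_, ?_⟩
      · rw [h9.length_eq, List.length_ofFn]
      · refine (h9.map Lr.i).nodup_iff.2 ?_
        rw [List.map_ofFn, List.nodup_ofFn]
        exact hinj
      · intro a ha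
        have h10 := (h9.mem_iff).1 ha
        rw [List.mem_ofFn] at h10
        obtain ⟨i, rfl⟩ := h10
        change ((τ i).succ : Fin (n + 2)) ≠ 0
        exact Fin.succ_ne_zero _

/-- iterated commutators of elements with leading terms `s x` -/
theorem comm_top (l : Fin (n + 1) → L) (s : Fin (n + 1) → ZMod p)
    (y : Fin (n + 1) → UG Q (Lr (Fin (n + 2)) L) (ZMod p) (WN Q L {i | i ≠ 0} (n + 1)))
    (h1 : ∀ i, (y i).q = 1) (h2 : ∀ i (w : List (Lr (Fin (n + 2)) L)), w ≠ [] → (∀ a ∈ w, a.i ≠ i.rev.succ) → (y i).c w = 0)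
    (h3 : ∀ i (a : Lr (Fin (n + 2)) L), (y i).c [a] = if a = ⟨i.rev.succ, l i⟩ then s i else 0) :
    (rn (List.ofFn y)).q = 1 ∧ (rn (List.ofFn y)).c =
      e1 + (∏ i, s i) • br (List.ofFn fun i : Fin (n + 1) => (⟨i.rev.succ, l i⟩ : Lr (Fin (n + 2)) L)) :=
  comm_topP Fin.revPerm l s y h1 h2 h3

/-- multiplication by an element of the top layer -/
theorem top_mul {S : Set (Fin (n + 2))} (a b : UG Q (Lr (Fin (n + 2)) L) (ZMod p) (WN Q L S (n + 1)))
    (ha : a.q = 1) (ha2 : ∀ w : List (Lr (Fin (n + 2)) L), w ≠ [] → w.length ≤ n → a.c w = 0)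
    (w : List (Lr (Fin (n + 2)) L)) (hw : w ≠ []) : (a * b).c w = a.c w + b.c w := by
  by_cases hW : w ∈ (WN Q L S (n + 1)).s
  · have hlen : w.length ≤ n + 1 := hW.1
    rw [mul_c_one _ _ ha _ hW, cv_ps _ _ _ hw, a.one, b.one, Finset.sum_eq_zero, add_zero, one_mul,
      mul_one, add_comm]
    intro i hi
    obtain ⟨ht, hd, htl, hdl⟩ := ico hi
    rw [Finset.mem_Ico] at hi
    rw [ha2 _ ht (by omega), zero_mul]
  · rw [(a * b).out w hW, a.out w hW, b.out w hW, add_zero]

end E

end H62.BM
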