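import Pool.Agent.H42.WM.TopD

/-!
# [H42 WM D] the top lemma (statement: helper62)
-/

set_option autoImplicit false

open scoped Classical

noncomputable section

namespace H62.BM

open H62.BL

section D

variable {Gn P Q L : Type} [Group P] [Group Q] [MulAction Q L] [Fintype L] {p n : ℕ} [NeZero p]

/-- TOP LEMMA -/
theorem top_lemma (D : LG p n P Q L) (kd : Gn → Option (Fin (n + 2) × Bool)) (bs : Gn → P)
    (g : Fin (n + 2) → P) (lam : Fin (n + 2) → L) (hg : ∀ j, g j * (D.s (lam j))⁻¹ ∈ D.f 2)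
    (z : FreeGroup Gn) (k : Fin (n + 2)) (b : Bool) (χ : P → ZMod p)
    (hχ : ∀ x ∈ D.f (n + 1), ∀ y ∈ D.f (n + 1), χ (x * y) = χ x + χ y) :
    χ (tp (n + 1) (fun e => cub kd bs g z (k.insertNth b e))) =
      ∑ t : Fin (n + 1) → Lr (Fin (n + 2)) L,
        if (∀ i, (t i).i ≠ k) ∧ (t (Fin.last n)).i = k.succAbove 0 then
          (rel (WN Q L Set.univ (n + 1)) kd (fun x => D.pi (bs x)) lam z :
            UG Q _ (ZMod p) _).c (List.ofFn t) * χ (D.rw (List.ofFn t)) else 0 := by
  have hφ := ad_tp D.fl D.bot hχ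
  have h1 := EQ_all (D := D) (k := k) (kd := kd) (bs := bs) (g := g) (lam := lam) (b := b) hg z
    e1 _ hφ
  rw [rho_e1] at h1
  have h2 : prg D k (e1 : List (Lr (Fin (n + 2)) L) → ZMod p)
      (fun x => (fun x => χ (tp n x)) (fh k kd bs g b false z * x * (fh k kd bs g b false z)⁻¹)) =
      0 := by
    refine Finset.sum_eq_zero fun w _ => ?_
    rcases eq_or_ne w [] with rfl | hw
    · rw [Eh_nil]
      have h3 : fh k kd bs g b false z * 1 * (fh k kd bs g b false z)⁻¹ = 1 := by group
      change _ * χ (tp n (fh k kd bs g b false z * 1 * (fh k kd bs g b false z)⁻¹)) = 0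
      rw [h3]
      exact mul_eq_zero_of_right _ hφ.one
    · have h3 : (e1 : List (Lr (Fin (n + 2)) L) → ZMod p) w = 0 := if_neg hw
      rw [h3, zero_mul]
  have h3 : (e1 : List (Lr (Fin (n + 2)) L) → ZMod p) [] = 1 := if_pos rfl
  rw [h2, zero_add, h3, one_mul] at h1
  have h4 : tp (n + 1) (fun e => cub kd bs g z (k.insertNth b e)) =
      tp n (fh k kd bs g b true z * (fh k kd bs g b false z)⁻¹) := rfl
  rw [h4]
  change χ (tp n (fh k kd bs g b true z * (fh k kd bs g b false z)⁻¹)) = _
  rw [← h1]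
  -- words of length `n + 1`
  obtain ⟨r, hr⟩ : ∃ r : UG Q (Lr (Fin (n + 2)) L) (ZMod p) (WN Q L Set.univ (n + 1)),
    r = rel (WN Q L Set.univ (n + 1)) kd (fun x => D.pi (bs x)) lam z := ⟨_, rfl⟩
  rw [← hr]
  change ∑ w ∈ Wf Q L n, r.c w * χ (tp n (Eh D k w)) = _
  have hχ1 : χ 1 = 0 := by
    have h5 := hχ 1 (Subgroup.one_mem _) 1 (Subgroup.one_mem _)
    rw [mul_one] at h5
    linear_combination -h5
  have hval : ∀ w ∈ Wf Q L n, χ (tp n (Eh D k w)) =
      if w.length = n + 1 ∧ (∀ a ∈ w, a.i ≠ k) ∧ (w.map Lr.i).getLast? = some (k.succAbove 0) then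
        χ (D.rw w) else 0 := by
    intro w hw
    obtain ⟨hw1, hw2, -⟩ := mem_Wf.1 hw
    by_cases hk : ∃ a ∈ w, a.i = k
    · rw [Eh_k D k hk, tp_one, hχ1, if_neg]
      rintro ⟨-, h5, -⟩
      obtain ⟨a, ha, ha2⟩ := hk
      exact h5 a ha ha2
    · have hk' : ∀ a ∈ w, a.i ≠ k := fun a ha ha2 => hk ⟨a, ha, ha2⟩
      by_cases hl : (w.map Lr.i).getLast? = some (k.succAbove 0)
      · by_cases hn : w.length = n + 1
        · rw [if_pos ⟨hn, hk', hl⟩, ← Eh_top D k hk' hl, tp_last]
          rintro e ⟨j, hj⟩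
          refine Eh_supp D k ?_ e hj
          -- the index `k.succAbove j.succ` occurs
          by_contra hcon
          have hnd : (k.succAbove j.succ :: k :: w.map Lr.i).Nodup := by
            rw [List.nodup_cons, List.nodup_cons, List.mem_cons]
            refine ⟨?_, ?_, hw2⟩
            · rintro (h5 | h5)
              · exact Fin.succAbove_ne k _ h5
              · obtain ⟨a, ha, ha2⟩ := List.mem_map.1 h5
                exact hcon ⟨a, ha, ha2⟩
            · intro h5
              obtain ⟨a, ha, ha2⟩ := List.mem_map.1 h5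
              exact hk' a ha ha2
          have h6 := hnd.length_le_card
          rw [Fintype.card_fin, List.length_cons, List.length_cons, List.length_map] at h6
          omega
        · rw [if_neg fun h => hn h.1]
          -- some index does not occur
          have hex : ∃ j : Fin n, ∀ a ∈ w, a.i ≠ k.succAbove j.succ := by
            by_contra hcon
            push Not at hcon
            have h5 : (Finset.univ.erase k) ⊆ (w.map Lr.i).toFinset := by
              intro i hi
              rcases ix_cases k i with h6 | h6 | ⟨j, h6⟩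
              · exact absurd h6 (Finset.ne_of_mem_erase hi)
              · rw [List.mem_toFinset, h6]
                exact List.mem_of_getLast? hl
              · obtain ⟨a, ha, ha2⟩ := hcon j
                rw [List.mem_toFinset, h6, ← ha2]
                exact List.mem_map_of_mem ha
            have h6 := Finset.card_le_card h5
            rw [Finset.card_erase_of_mem (Finset.mem_univ k), Finset.card_univ, Fintype.card_fin,
              List.toFinset_card_of_nodup hw2, List.length_map] at h6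
            omega
          obtain ⟨j, hj⟩ := hex
          rw [tp_indep n _ j fun e e' he => Eh_indep D k hj e e' he, hχ1]
      · rw [Eh_last D k hl, tp_one, hχ1, if_neg fun h => hl h.2.2]
  have h6 : ∑ w ∈ Wf Q L n, r.c w * χ (tp n (Eh D k w)) =
      ∑ w ∈ (Wf Q L n).filter (fun w => w.length = n + 1), (if (∀ a ∈ w, a.i ≠ k) ∧
        (w.map Lr.i).getLast? = some (k.succAbove 0) then r.c w * χ (D.rw w) else 0) := by
    rw [Finset.sum_filter]
    refine Finset.sum_congr rfl fun w hw => ?_
    rw [hval w hw]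
    by_cases h7 : w.length = n + 1
    · rw [if_pos h7]
      by_cases h8 : (∀ a ∈ w, a.i ≠ k) ∧ (w.map Lr.i).getLast? = some (k.succAbove 0)
      · rw [if_pos ⟨h7, h8⟩, if_pos h8]
      · rw [if_neg fun h => h8 h.2, if_neg h8, mul_zero]
    · rw [if_neg h7, if_neg fun h => h7 h.1, mul_zero]
  rw [h6]
  symm
  have hcond : ∀ t : Fin (n + 1) → Lr (Fin (n + 2)) L,
      ((∀ i, (t i).i ≠ k) ∧ (t (Fin.last n)).i = k.succAbove 0) ↔
      ((∀ a ∈ List.ofFn t, a.i ≠ k) ∧ ((List.ofFn t).map Lr.i).getLast? = some (k.succAbove 0)) := by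
    intro t
    have h7 : ((List.ofFn t).map Lr.i).getLast? = some (t (Fin.last n)).i := by
      rw [List.map_ofFn, List.getLast?_eq_getElem?, List.length_ofFn, Nat.add_sub_cancel,
        List.getElem?_ofFn]
      rw [dif_pos (Nat.lt_succ_self n)]
      rfl
    rw [h7, Option.some_inj]
    refine and_congr ⟨fun h a ha => ?_, fun h i => h _ (List.mem_ofFn.2 ⟨i, rfl⟩)⟩ Iff.rfl
    obtain ⟨i, rfl⟩ := List.mem_ofFn.1 ha
    exact h i
  rw [← Finset.sum_filter_add_sum_filter_not Finset.univ
    (fun t : Fin (n + 1) → Lr (Fin (n + 2)) L => List.ofFn t ∈ Wf Q L n)]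
  have h8 : ∑ t ∈ Finset.univ.filter (fun t : Fin (n + 1) → Lr (Fin (n + 2)) L =>
      ¬ List.ofFn t ∈ Wf Q L n), (if (∀ i, (t i).i ≠ k) ∧ (t (Fin.last n)).i = k.succAbove 0 then
        r.c (List.ofFn t) * χ (D.rw (List.ofFn t)) else 0) = 0 := by
    refine Finset.sum_eq_zero fun t ht => ?_
    rw [r.out _ fun h => (Finset.mem_filter.1 ht).2 (mem_Wf.2 h), zero_mul, ite_self]
  rw [h8, add_zero]
  refine Finset.sum_nbij (fun t => List.ofFn t) ?_ ?_ ?_ ?_
  · intro t ht
    exact Finset.mem_filter.2 ⟨(Finset.mem_filter.1 ht).2, List.length_ofFn⟩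
  · intro t _ t' _ h
    exact List.ofFn_injective h
  · intro w hw
    obtain ⟨hw1, hw2⟩ := Finset.mem_filter.1 (Finset.mem_coe.1 hw)
    have h9 : List.ofFn (fun i : Fin (n + 1) => w.get (i.cast hw2.symm)) = w := by
      apply List.ext_getElem
      · rw [List.length_ofFn, hw2]
      · intro i h h'
        rw [List.getElem_ofFn]
        rfl
    refine ⟨fun i : Fin (n + 1) => w.get (i.cast hw2.symm), ?_, h9⟩
    rw [Finset.mem_coe, Finset.mem_filter]
    exact ⟨Finset.mem_univ _, by rw [h9]; exact hw1⟩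
  · intro t _
    by_cases h9 : (∀ i, (t i).i ≠ k) ∧ (t (Fin.last n)).i = k.succAbove 0
    · rw [if_pos h9, if_pos ((hcond t).1 h9)]
    · rw [if_neg h9, if_neg fun h => h9 ((hcond t).2 h)]

end D

end H62.BM
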