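import Pool.Agent.H62.BL.Vx
import Pool.Agent.H62.BM.ComE
import Pool.Agent.H57.GP.Gpr

/-!
# H62 BM CDF: the inner part (CORE) of the box lemma BLX, definitions

`q` the modulus (a power of `p`), `n + 2` variables with the indices `Fin (n + 2)`, the index `0` is the variable `w` of the inner sum.
* `Cy`: places `L`, Frobenius elements `Fr`, words `wv v`, `v ∈ Z`, with the right values for the homomorphisms to `p`-groups of order at most `M`, unramified outside `S0`, `Z`.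
* `Cv`: labels `lam`, `f` = the image of the Frobenius at the last variable, `kf` = the functional on words of length `n + 1`; `Cv.kp` its value on
  functions.
* `Cm`: one member: ramified primes `T`, homomorphism `phi`, cells `cel`, summand `F`, factors `h k` (independent of the variable `k`), bounded function `B`.
* `relc`: the relative evaluation, indices different from `0` (generators of `a`: `-1`, of `b`: `1`; the others: `phi`). `Hc`: homomorphisms with these words.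
* `Lc0`: the evaluated element lies over `f` and its lower coefficients vanish. `g1`, `gg`: the function of the Frobenius at `w`; `Uc`: the inserted
  function.
* `Cm.Ok`: the hypotheses on a member: `cl` (H1), `ex` (H2), `id` (H3).
-/

set_option autoImplicit false

open scoped NumberField
open IsDedekindDomain
open scoped Classical

noncomputable section

namespace H62.BM

open H63.MA H38.BB H38.BG H57.PC H57.BRA H77.WD H77.WE H62.BL

/-- `q` is a power of the prime `p` -/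
def Pw (p q : ℕ) : Prop := p.Prime ∧ ∃ k, q = p ^ (k + 1)

theorem Pw.prime {p q : ℕ} (h : Pw p q) : p.Prime := h.1

theorem Pw.neZero {p q : ℕ} (h : Pw p q) : NeZero q := by
  obtain ⟨h, k, rfl⟩ := h
  exact ⟨pow_ne_zero _ h.ne_zero⟩

theorem epc_norm (q : ℕ) (a : ZMod q) : ‖ep q a‖ = 1 := ep_norm q a

theorem epc_add {q : ℕ} [NeZero q] (a b : ZMod q) : ep q (a + b) = ep q a * ep q b := by
  rw [rayc_std, rayc_std, rayc_std, AddChar.map_add_eq_mul]

theorem epc_eq_one {q : ℕ} [NeZero q] (a : ZMod q) : ep q a = 1 ↔ a = 0 := by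
  rw [rayc_std]
  constructor
  · intro h
    apply ZMod.injective_stdAddChar
    rw [h, AddChar.map_zero_eq_one]
  · rintro rfl
    rw [AddChar.map_zero_eq_one]

theorem epc_sum {q : ℕ} [NeZero q] (b : ZMod q) :
    ∑ a : ZMod q, ep q (a * b) = if b = 0 then (q : ℂ) else 0 := by
  have h := AddChar.sum_mulShift b (ZMod.isPrimitive_stdAddChar q)
  simp only [rayc_std]
  rw [h, ZMod.card]
  push_cast
  rfl

theorem epc_conj {q : ℕ} [NeZero q] (x : ZMod q) : (starRingEnd ℂ) (ep q x) = ep q (-x) := by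
  have h1 : ep q x * ep q (-x) = 1 := by
    rw [← epc_add, add_neg_cancel, ep_zero]
  rw [← Complex.inv_eq_conj (ep_norm q x)]
  exact inv_eq_of_mul_eq_one_right h1

/-- the functional at the last variable -/
structure Cv (q n : ℕ) (Qg Lm : Type) where
  lam : Fin (n + 2) → Lm
  f : Qg
  kf : List (Lr (Fin (n + 2)) Lm) → ZMod q

/-- the value of the functional -/
def Cv.kp {q n : ℕ} {Qg Lm : Type} [Fintype Lm] (v : Cv q n Qg Lm)
    (c : List (Lr (Fin (n + 2)) Lm) → ZMod q) : ZMod q :=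
  ∑ t : Fin (n + 1) → Lr (Fin (n + 2)) Lm, c (List.ofFn t) * v.kf (List.ofFn t)

/-- the functional is invariant under `f` -/
def Cv.Inv {q n : ℕ} {Qg Lm : Type} [Group Qg] [MulAction Qg Lm] [Fintype Lm] (v : Cv q n Qg Lm) : Prop :=
  ∀ c, v.kp (qa v.f c) = v.kp c

section grp

variable {q n : ℕ} {Qg Lm : Type} [Group Qg] [MulAction Qg Lm]

/-- over `f`, the lower coefficients vanish -/
def Lc0 (v : Cv q n Qg Lm) (x : UGd q n Qg Lm) : Prop :=
  x.q = v.f ∧ ∀ u, u ≠ [] → u.length ≤ n → x.c u = 0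

/-- the function of the Frobenius at the last variable -/
def g1 [Fintype Lm] (v : Cv q n Qg Lm) (x : UGd q n Qg Lm) : ℂ :=
  if Lc0 v x then ep q (-v.kp x.c) else 0

/-- the function on the product of the groups of the vertices -/
def gg [Fintype Lm] (v : Cv q n Qg Lm) (x : (Fin (n + 1) → Bool) → UGd q n Qg Lm) : ℂ :=
  ∏ e, cj e (g1 v (x e))

end grp

variable {K : Type} [Field K] [NumberField K] {Ω : Type} [Field Ω] [Algebra K Ω]
  {p : ℕ} {ζ : K} {D : RD0 K p ζ} {q n : ℕ} {Qg Lm : Type} [Group Qg] [MulAction Qg Lm]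

/-- places, Frobenius elements, words -/
structure Cy (D : RD0 K p ζ) (A : GS D Ω) where
  L : LDs D Ω
  Fr : FR L
  M : ℕ
  Z : Finset (Pl K)
  wv : Pl K → FW A

variable {A : GS D Ω}

structure Cy.Ok (y : Cy D A) (q n : ℕ) (Qg Lm : Type) [Group Qg] [MulAction Qg Lm] : Prop where
  wd : ∀ (H : Type) [Group H] [Finite H], IsPGroup p H → Nat.card H ≤ y.M → ∀ φ : Gal(Ω/K) →* H,
    Unz y.L y.Z φ → ∀ v ∈ y.Z, hat y.L A φ (y.wv v) = φ (y.Fr.F v)
  out : ∀ v ∈ y.Z, v ∉ D.S0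
  cd : Nat.card (UGd q n Qg Lm) ≤ y.M

/-- a member of the family -/
structure Cm (K Ω : Type) [Field K] [NumberField K] [Field Ω] [Algebra K Ω] (n : ℕ) (Qg : Type)
    [Group Qg] where
  T : Finset (Pl K)
  phi : Gal(Ω/K) →* Qg
  Cl : Type
  cel : (Fin (n + 2) → Pl K) → Cl
  F : (Fin (n + 2) → Pl K) → ℂ
  h : Fin (n + 2) → (Fin (n + 2) → Pl K) → ℂ
  B : (Fin (n + 2) → Pl K) → (Fin (n + 1) → Pl K) → ℂ

/-- the relative evaluation, indices different from `0` -/
def relc (y : Cy D A) (r : Cm K Ω n Qg) (v : Cv q n Qg Lm) (a b : Fin (n + 1) → Pl K) :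
    FW A →* UGd q n Qg Lm :=
  rel (WN Qg Lm {i | i ≠ 0} (n + 1)) (kdq A Fin.succ a b) (fun x => hat y.L A r.phi (FreeGroup.of x)) v.lam

/-- `Ψ` has the words `relc` and is unramified outside `S0`, `T`, `a`, `b` -/
def Hc (y : Cy D A) (r : Cm K Ω n Qg) (v : Cv q n Qg Lm) (a b : Fin (n + 1) → Pl K)
    (Ψ : Gal(Ω/K) →* UGd q n Qg Lm) : Prop :=
  Unz y.L (r.T ∪ Finset.univ.image a ∪ Finset.univ.image b) Ψ ∧ hat y.L A Ψ = relc y r v a b

/-- the inserted function -/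
def Uc [Fintype Lm] (y : Cy D A) (r : Cm K Ω n Qg) (v : Cv q n Qg Lm) (q1 : Fin (n + 2) → Pl K)
    (w : Pl K) (a : Fin (n + 1) → Pl K) : ℂ :=
  if ND r.T (Fin.cons w a : Fin (n + 2) → Pl K) q1 ∧ ∃ Ψ, Hc y r v a (Fin.tail q1) Ψ then
    g1 v (relc y r v a (Fin.tail q1) (y.wv w)) else 0

/-- the hypotheses on a pair of tuples: distinct primes in `Z`, of prime norm -/
def Cpr (y : Cy D A) (r : Cm K Ω n Qg) (q0 q1 : Fin (n + 2) → Pl K) : Prop :=
  ND r.T q0 q1 ∧ (∀ k, q0 k ∈ y.Z ∧ q1 k ∈ y.Z) ∧ ∀ k, (nm (q0 k)).Prime ∧ (nm (q1 k)).Prime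

/-- the hypotheses on a member -/
structure Cm.Ok [Fintype Lm] (r : Cm K Ω n Qg) (y : Cy D A) (v : Cv q n Qg Lm) : Prop where
  sub : r.T ⊆ y.Z
  unz : Unz y.L r.T r.phi
  lnk : ∃ (τ : Equiv.Perm (Fin (n + 1))) (u : Fin (n + 1) → Qg), (∀ i, u i ∈ r.phi.range) ∧
    v.kp (br (List.ofFn fun i : Fin (n + 1) =>
      (⟨(τ i).succ, u i • v.lam (τ i).succ⟩ : Lr (Fin (n + 2)) Lm))) ≠ 0
  F : ∀ q, ‖r.F q‖ ≤ 1
  F0 : ∀ q, ¬ Adm r.T q → r.F q = 0
  h : ∀ k q, ‖r.h k q‖ ≤ 1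
  hk : ∀ k q x, r.h k (Function.update q k x) = r.h k q
  B : ∀ q1 a, ‖r.B q1 a‖ ≤ 1
  fin : Finite r.Cl
  cl : ∀ q0 q1, Cpr y r q0 q1 → r.F q1 ≠ 0 → (∃ Ψ, Hc y r v (Fin.tail q0) (Fin.tail q1) Ψ) →
    Lc0 v (relc y r v (Fin.tail q0) (Fin.tail q1) (y.wv (q0 0))) →
    (∀ e : Fin (n + 2) → Bool, e ≠ (fun _ => false) → r.cel (vt q0 q1 e) = r.cel q1) →
    r.cel q0 = r.cel q1
  ex : ∀ q0 q1, Cpr y r q0 q1 → r.F q1 ≠ 0 → (∀ e : Fin (n + 2) → Bool, r.cel (vt q0 q1 e) = r.cel q1) →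
    (∃ Ψ, Hc y r v (Fin.tail q0) (Fin.tail q1) Ψ) ∧
      Lc0 v (relc y r v (Fin.tail q0) (Fin.tail q1) (y.wv (q0 0)))
  id : ∀ q0 q1, Cpr y r q0 q1 → r.F q1 ≠ 0 → (∀ e : Fin (n + 2) → Bool, r.cel (vt q0 q1 e) = r.cel q1) →
    ∏ e : Fin (n + 2) → Bool, cj e (r.F (vt q0 q1 e)) = r.B q1 (Fin.tail q0) *
      ep q (-v.kp (relc y r v (Fin.tail q0) (Fin.tail q1) (y.wv (q0 0))).c)

section basic

/-- the `Q`-part of `relc` is `phi` -/
theorem relc_q {y : Cy D A} (hy : ∀ v ∈ y.Z, v ∉ D.S0) {r : Cm K Ω n Qg} (hr : Unz y.L r.T r.phi)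
    (v : Cv q n Qg Lm) {a b : Fin (n + 1) → Pl K} (ha : ∀ k, a k ∉ r.T ∧ a k ∈ y.Z)
    (hb : ∀ k, b k ∉ r.T ∧ b k ∈ y.Z) (z : FW A) :
    (relc y r v a b z).q = hat y.L A r.phi z := by
  obtain ⟨f, hf⟩ : ∃ f : UGd q n Qg Lm →* Qg, ∀ x, f x = x.q :=
    ⟨⟨⟨fun x => x.q, rfl⟩, fun _ _ => rfl⟩, fun _ => rfl⟩
  have h1 : f.comp (relc y r v a b) = hat y.L A r.phi := by
    refine FreeGroup.ext_hom _ _ fun x => ?_
    rw [MonoidHom.comp_apply, hf]
    unfold relc
    rw [rel_of]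
    rcases x with w | i
    · by_cases h2 : ∃ k, a k = w
      · have h3 : kdq A Fin.succ a b (Sum.inl w) = some (Fin.succ h2.choose, false) := by
          unfold kdq
          dsimp only
          rw [dif_pos h2]
        rw [h3, hat_inl]
        obtain ⟨k, rfl⟩ := h2
        rw [hr.2 _ (hy _ (ha k).2) (ha k).1]
        rfl
      · by_cases h4 : ∃ k, b k = w
        · have h3 : kdq A Fin.succ a b (Sum.inl w) = some (Fin.succ h4.choose, true) := by
            unfold kdq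
            dsimp only
            rw [dif_neg h2, dif_pos h4]
          rw [h3, hat_inl]
          obtain ⟨k, rfl⟩ := h4
          rw [hr.2 _ (hy _ (hb k).2) (hb k).1]
          rfl
        · have h3 : kdq A Fin.succ a b (Sum.inl w) = none := by
            unfold kdq
            dsimp only
            rw [dif_neg h2, dif_neg h4]
          rw [h3]
          rfl
    · rfl
  rw [← h1, MonoidHom.comp_apply, hf]

theorem fin_ug [NeZero q] [Finite Qg] [Finite Lm] : Finite (UGd q n Qg Lm) :=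
  ug_finite (wn_finite _ _)

theorem pg_ug {ℓ : ℕ} (hq : Pw ℓ q) [Finite Qg] [Finite Lm] (hQ : IsPGroup ℓ Qg) :
    IsPGroup ℓ (UGd q n Qg Lm) := by
  obtain ⟨hℓ, j, hj⟩ := hq
  have hF : Fact ℓ.Prime := ⟨hℓ⟩
  have hne : NeZero q := ⟨by rw [hj]; exact pow_ne_zero _ hℓ.ne_zero⟩
  obtain ⟨k, hk⟩ := IsPGroup.iff_card.1 hQ
  refine IsPGroup.of_card
    (n := k + (j + 1) * (Nat.card (WN Qg Lm {i : Fin (n + 2) | i ≠ 0} (n + 1)).s - 1)) ?_
  have h1 : Nat.card (UGd q n Qg Lm) = Nat.card Qg *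
      q ^ (Nat.card (WN Qg Lm {i : Fin (n + 2) | i ≠ 0} (n + 1)).s - 1) := ug_card (wn_finite _ _)
  rw [h1, hk, hj, ← pow_mul, ← pow_add]

theorem card_q [NeZero q] [Finite Qg] [Finite Lm] : Nat.card Qg ≤ Nat.card (UGd q n Qg Lm) := by
  have h1 : Nat.card (UGd q n Qg Lm) = Nat.card Qg *
      q ^ (Nat.card (WN Qg Lm {i : Fin (n + 2) | i ≠ 0} (n + 1)).s - 1) := ug_card (wn_finite _ _)
  rw [h1]
  exact Nat.le_mul_of_pos_right _ (Nat.pow_pos (Nat.pos_of_ne_zero (NeZero.ne q)))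

end basic

end H62.BM
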