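import Pool.Agent.H62.BM.Cdf

/-!
# H62 BM CID: the inserted function (CORE of BLX)

`fx c q` = the summand on the cell `c`. `idc`: for `q0 = cons w a`, `q0 k ≠ q1 k` for all `k`, the product over the vertices equals
`(∏ e ≠ 0, 1_c(vt e)) * (if F q1 = 0 then 0 else B q1 a) * Uc q1 w a`.
-/

set_option autoImplicit false

open scoped NumberField
open IsDedekindDomain
open scoped Classical

noncomputable section

namespace H62.BM

open H63.MA H38.BB H38.BG H57.PC H57.BRA H77.WD H77.WE H62.BL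

theorem cjc_zero {m : ℕ} (e : Fin m → Bool) : cj e 0 = 0 := by
  unfold cj
  split_ifs
  · rfl
  · exact map_zero _

theorem cjc_norm {m : ℕ} (e : Fin m → Bool) (z : ℂ) : ‖cj e z‖ = ‖z‖ := by
  unfold cj
  split_ifs
  · rfl
  · exact Complex.norm_conj z

variable {K : Type} [Field K] [NumberField K] {Ω : Type} [Field Ω] [Algebra K Ω]
  {p : ℕ} {ζ : K} {D : RD0 K p ζ} {q n : ℕ} {Qg Lm : Type} [Group Qg] [MulAction Qg Lm]
  {A : GS D Ω}

/-- `q` is admissible and in the cell `c` -/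
def Icl (r : Cm K Ω n Qg) (c : r.Cl) (q : Fin (n + 2) → Pl K) : Prop := Adm r.T q ∧ r.cel q = c

/-- the summand on the cell `c` -/
def fx (r : Cm K Ω n Qg) (c : r.Cl) (q : Fin (n + 2) → Pl K) : ℂ := if Icl r c q then r.F q else 0

theorem g1_le [Fintype Lm] (v : Cv q n Qg Lm) (x : UGd q n Qg Lm) : ‖g1 v x‖ ≤ 1 := by
  unfold g1
  split_ifs
  · rw [epc_norm]
  · rw [norm_zero]
    exact zero_le_one

theorem gg_le [Fintype Lm] (v : Cv q n Qg Lm) (x : (Fin (n + 1) → Bool) → UGd q n Qg Lm) :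
    ‖gg v x‖ ≤ 1 := by
  unfold gg
  rw [norm_prod]
  refine Finset.prod_le_one (fun _ _ => norm_nonneg _) fun e _ => ?_
  rw [cjc_norm]
  exact g1_le v _

theorem uc_le [Fintype Lm] (y : Cy D A) (r : Cm K Ω n Qg) (v : Cv q n Qg Lm)
    (q1 : Fin (n + 2) → Pl K) (w : Pl K) (a : Fin (n + 1) → Pl K) : ‖Uc y r v q1 w a‖ ≤ 1 := by
  unfold Uc
  split_ifs
  · exact g1_le v _
  · rw [norm_zero]
    exact zero_le_one

theorem fx_le (r : Cm K Ω n Qg) (hF : ∀ q, ‖r.F q‖ ≤ 1) (c : r.Cl) (q : Fin (n + 2) → Pl K) :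
    ‖fx r c q‖ ≤ 1 := by
  unfold fx
  split_ifs
  · exact hF q
  · rw [norm_zero]
    exact zero_le_one

theorem idc [Fintype Lm] (y : Cy D A) {r : Cm K Ω n Qg} {v : Cv q n Qg Lm} (hr : r.Ok y v)
    (c : r.Cl) (q1 : Fin (n + 2) → Pl K) (w : Pl K) (a : Fin (n + 1) → Pl K)
    (hq : ∀ k, (Fin.cons w a : Fin (n + 2) → Pl K) k ∈ y.Z ∧ q1 k ∈ y.Z)
    (hqn : ∀ k, (nm ((Fin.cons w a : Fin (n + 2) → Pl K) k)).Prime ∧ (nm (q1 k)).Prime)
    (hne : ∀ k, (Fin.cons w a : Fin (n + 2) → Pl K) k ≠ q1 k) :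
    ∏ e : Fin (n + 2) → Bool, cj e (fx r c (vt (Fin.cons w a) q1 e)) =
      (∏ e ∈ Finset.univ.filter (fun e : Fin (n + 2) → Bool => e ≠ fun _ => false),
        if Icl r c (vt (Fin.cons w a) q1 e) then 1 else 0) *
        (if r.F q1 = 0 then 0 else r.B q1 a) *
        Uc y r v q1 w a := by
  obtain ⟨q0, hq0⟩ : ∃ q0 : Fin (n + 2) → Pl K, q0 = Fin.cons w a := ⟨_, rfl⟩
  have hq00 : q0 0 = w := by rw [hq0]; rfl
  have hq0t : Fin.tail q0 = a := by rw [hq0]; rfl
  have hUf : Uc y r v q1 w a = if ND r.T q0 q1 ∧ ∃ Ψ, Hc y r v (Fin.tail q0) (Fin.tail q1) Ψ then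
      g1 v (relc y r v (Fin.tail q0) (Fin.tail q1) (y.wv (q0 0))) else 0 := by
    unfold Uc
    rw [hq0t, hq00, hq0]
  have hB' : r.B q1 a = r.B q1 (Fin.tail q0) := by rw [hq0t]
  rw [← hq0] at hq hqn hne ⊢
  rw [hUf, hB']
  clear hUf hB' hq00 hq0t hq0
  have htf : (fun _ : Fin (n + 2) => true) ≠ fun _ => false := fun h => by
    have h1 := congrFun h 0
    simp at h1
  by_cases hA : ∀ e : Fin (n + 2) → Bool, e ≠ (fun _ => false) → Icl r c (vt q0 q1 e)
  · have hct : Icl r c q1 := by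
      have h1 := hA _ htf
      rwa [vt_true] at h1
    have hprod : (∏ e ∈ Finset.univ.filter (fun e : Fin (n + 2) → Bool => e ≠ fun _ => false),
        if Icl r c (vt q0 q1 e) then (1 : ℂ) else 0) = 1 := by
      refine Finset.prod_eq_one fun e he => ?_
      rw [if_pos (hA e (Finset.mem_filter.1 he).2)]
    rw [hprod, one_mul]
    by_cases hF : r.F q1 = 0
    · rw [if_pos hF, zero_mul]
      refine Finset.prod_eq_zero (Finset.mem_univ fun _ => true) ?_
      rw [vt_true, fx, hF, ite_self, cjc_zero]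
    rw [if_neg hF]
    by_cases hB : Icl r c q0
    · have hall : ∀ e : Fin (n + 2) → Bool, Icl r c (vt q0 q1 e) := by
        intro e
        by_cases he : e = fun _ => false
        · rw [he, vt_false]
          exact hB
        · exact hA e he
      have hND : ND r.T q0 q1 := nd_of (fun e => (hall e).1) hne
      have hc : ∀ e : Fin (n + 2) → Bool, r.cel (vt q0 q1 e) = r.cel q1 :=
        fun e => (hall e).2.trans hct.2.symm
      have hL : ∀ e : Fin (n + 2) → Bool, fx r c (vt q0 q1 e) = r.F (vt q0 q1 e) := by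
        intro e
        unfold fx
        rw [if_pos (hall e)]
      simp only [hL]
      have hcp : Cpr y r q0 q1 := ⟨hND, hq, hqn⟩
      obtain ⟨hex, hlc⟩ := hr.ex q0 q1 hcp hF hc
      rw [hr.id q0 q1 hcp hF hc, if_pos ⟨hND, hex⟩, g1, if_pos hlc]
    · have hL : ∏ e : Fin (n + 2) → Bool, cj e (fx r c (vt q0 q1 e)) = 0 := by
        refine Finset.prod_eq_zero (Finset.mem_univ fun _ => false) ?_
        rw [vt_false]
        unfold fx
        rw [if_neg hB, cjc_zero]
      rw [hL]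
      by_cases h : ND r.T q0 q1 ∧ ∃ Ψ, Hc y r v (Fin.tail q0) (Fin.tail q1) Ψ
      · rw [if_pos h, g1]
        by_cases hlc : Lc0 v (relc y r v (Fin.tail q0) (Fin.tail q1) (y.wv (q0 0)))
        · exfalso
          apply hB
          refine ⟨h.1.1, ?_⟩
          rw [← hct.2]
          exact hr.cl q0 q1 ⟨h.1, hq, hqn⟩ hF h.2 hlc fun e he => (hA e he).2.trans hct.2.symm
        · rw [if_neg hlc, mul_zero]
      · rw [if_neg h, mul_zero]
  · push Not at hA
    obtain ⟨e, he, hA⟩ := hA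
    have hL : ∏ e : Fin (n + 2) → Bool, cj e (fx r c (vt q0 q1 e)) = 0 := by
      refine Finset.prod_eq_zero (Finset.mem_univ e) ?_
      unfold fx
      rw [if_neg hA, cjc_zero]
    have hR : (∏ e ∈ Finset.univ.filter (fun e : Fin (n + 2) → Bool => e ≠ fun _ => false),
        if Icl r c (vt q0 q1 e) then (1 : ℂ) else 0) = 0 := by
      refine Finset.prod_eq_zero (Finset.mem_filter.2 ⟨Finset.mem_univ e, he⟩) ?_
      rw [if_neg hA]
    rw [hL, hR, zero_mul, zero_mul]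

end H62.BM
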