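import Pool.Agent.H62.BL.Csb
import Pool.Agent.H42.BX.Csh
import Pool.Agent.H62.BM.Cid

/-!
# H62 BM CBX: the two Cauchy inequalities for the summand with factors which miss a variable (CORE of BLX)

`bxh0`: the abstract form (as `bx0` in H62/BL/Bx.lean, Cauchy inequality `csh` of H42/BX/Csh.lean). `S3c` = the sum over three tuples of the sum over `w`.
`bxc1`: for one cell. `bxc`: the sum over the cells.
-/

set_option autoImplicit false

open scoped NumberField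
open IsDedekindDomain
open scoped Classical

noncomputable section

namespace H62.BM

open H63.MA H38.BB H38.BG H57.PC H57.BRA H77.WD H77.WE H62.BL

private theorem sum_pi {X : Type} {n : ℕ} (B : Fin (n + 1) → Finset X) (g : (Fin (n + 1) → X) → ℂ) :
    ∑ q ∈ Fintype.piFinset B, g q =
      ∑ a ∈ Fintype.piFinset (fun j : Fin n => B j.succ), ∑ w ∈ B 0, g (Fin.cons w a) := by
  rw [← Finset.sum_product']
  refine Finset.sum_nbij' (fun q => (Fin.tail q, q 0)) (fun x => Fin.cons x.2 x.1) ?_ ?_ ?_ ?_ ?_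
  · intro q hq
    rw [Fintype.mem_piFinset] at hq
    rw [Finset.mem_product, Fintype.mem_piFinset]
    exact ⟨fun j => hq j.succ, hq 0⟩
  · intro x hx
    rw [Finset.mem_product, Fintype.mem_piFinset] at hx
    rw [Fintype.mem_piFinset]
    intro k
    refine Fin.cases ?_ (fun j => ?_) k
    · exact hx.2
    · exact hx.1 j
  · intro q _
    exact Fin.cons_self_tail q
  · intro x _
    simp
  · intro q _
    rw [Fin.cons_self_tail]

private theorem cj_norm {m : ℕ} (e : Fin m → Bool) (z : ℂ) : ‖cj e z‖ = ‖z‖ := by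
  unfold cj
  split_ifs
  · rfl
  · exact RCLike.norm_conj z

private theorem deg_card {X : Type} {m : ℕ} (B : Fin m → Finset X) (Y : Fin m → ℝ)
    (hY : ∀ k, 1 ≤ Y k ∧ ((B k).card : ℝ) ≤ Y k) (q1 : Fin m → X) :
    (((Fintype.piFinset B).filter fun q => ∃ k, q k = q1 k).card : ℝ) ≤ (∏ k, Y k) * ∑ k, (Y k)⁻¹ := by
  have h1 : ((Fintype.piFinset B).filter fun q => ∃ k, q k = q1 k) ⊆
      Finset.univ.biUnion fun k => Fintype.piFinset (Function.update B k {q1 k}) := by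
    intro q hq
    rw [Finset.mem_filter, Fintype.mem_piFinset] at hq
    obtain ⟨hq, k, hk⟩ := hq
    rw [Finset.mem_biUnion]
    refine ⟨k, Finset.mem_univ _, ?_⟩
    rw [Fintype.mem_piFinset]
    intro j
    by_cases hj : j = k
    · subst hj
      rw [Function.update_self, Finset.mem_singleton]
      exact hk
    · rw [Function.update_of_ne hj]
      exact hq j
  have h2 : (((Fintype.piFinset B).filter fun q => ∃ k, q k = q1 k).card : ℝ) ≤
      ∑ k, ((Fintype.piFinset (Function.update B k {q1 k})).card : ℝ) := by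
    have := (Finset.card_le_card h1).trans Finset.card_biUnion_le
    exact_mod_cast this
  refine h2.trans ?_
  rw [Finset.mul_sum]
  refine Finset.sum_le_sum fun k _ => ?_
  rw [Fintype.card_piFinset]
  have h3 : (∏ j, Y j) * (Y k)⁻¹ = ∏ j ∈ Finset.univ.erase k, Y j := by
    rw [← Finset.mul_prod_erase Finset.univ Y (Finset.mem_univ k)]
    have : Y k ≠ 0 := by linarith [(hY k).1]
    field_simp
  rw [h3]
  push_cast
  rw [← Finset.mul_prod_erase Finset.univ (fun j => ((Function.update B k {q1 k} j).card : ℝ)) (Finset.mem_univ k)]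
  rw [Function.update_self, Finset.card_singleton, Nat.cast_one, one_mul]
  refine Finset.prod_le_prod (fun j _ => by positivity) fun j hj => ?_
  rw [Function.update_of_ne (Finset.ne_of_mem_erase hj)]
  exact (hY j).2

private theorem split_vt {n : ℕ} (F : (Fin (n + 2) → Bool) → ℂ) :
    ∏ e ∈ Finset.univ.filter (fun e : Fin (n + 2) → Bool => e ≠ fun _ => false), F e =
      F (Fin.cons true fun _ => false) * ∏ j : Fin (n + 1),
        ∏ e ∈ Finset.univ.filter (fun e : Fin (n + 2) → Bool => e j.succ = true ∧ ∀ i < j, e i.succ = false), F e := by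
  rw [← Finset.prod_filter_mul_prod_filter_not (Finset.univ.filter (fun e : Fin (n + 2) → Bool => e ≠ fun _ => false))
    (fun e => ∀ j : Fin (n + 1), e j.succ = false)]
  congr 1
  · rw [show ((Finset.univ.filter (fun e : Fin (n + 2) → Bool => e ≠ fun _ => false)).filter
      (fun e => ∀ j : Fin (n + 1), e j.succ = false)) = {Fin.cons true fun _ => false} from ?_]
    · rw [Finset.prod_singleton]
    · ext e
      rw [Finset.mem_filter, Finset.mem_filter, Finset.mem_singleton]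
      constructor
      · rintro ⟨⟨_, h1⟩, h2⟩
        have h0 : e 0 = true := by
          by_contra h
          rw [Bool.not_eq_true] at h
          apply h1
          funext k
          refine Fin.cases h (fun j => h2 j) k
        funext k
        refine Fin.cases ?_ (fun j => ?_) k
        · rw [h0, Fin.cons_zero]
        · rw [h2 j, Fin.cons_succ]
      · rintro rfl
        refine ⟨⟨Finset.mem_univ _, ?_⟩, fun j => by rw [Fin.cons_succ]⟩
        intro h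
        have := congrFun h 0
        rw [Fin.cons_zero] at this
        exact absurd this (by decide)
  · rw [← Finset.prod_biUnion]
    · refine Finset.prod_congr ?_ fun _ _ => rfl
      ext e
      rw [Finset.mem_filter, Finset.mem_filter, Finset.mem_biUnion]
      constructor
      · rintro ⟨_, h⟩
        push Not at h
        have hne : (Finset.univ.filter fun j : Fin (n + 1) => e j.succ = true).Nonempty := by
          obtain ⟨j, hj⟩ := h
          refine ⟨j, ?_⟩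
          rw [Finset.mem_filter]
          refine ⟨Finset.mem_univ _, ?_⟩
          exact Bool.eq_true_of_not_eq_false hj
        refine ⟨(Finset.univ.filter fun j : Fin (n + 1) => e j.succ = true).min' hne, Finset.mem_univ _, ?_⟩
        rw [Finset.mem_filter]
        refine ⟨Finset.mem_univ _, (Finset.mem_filter.mp (Finset.min'_mem _ hne)).2, fun i hi => ?_⟩
        by_contra h
        rw [Bool.not_eq_false] at h
        exact absurd hi (not_lt.mpr (Finset.min'_le _ i (by rw [Finset.mem_filter]; exact ⟨Finset.mem_univ i, h⟩)))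
      · rintro ⟨j, _, hj⟩
        rw [Finset.mem_filter] at hj
        refine ⟨⟨Finset.mem_univ _, ?_⟩, ?_⟩
        · rintro rfl
          exact Bool.false_ne_true hj.2.1
        · intro h
          rw [h j] at hj
          exact absurd hj.2.1 (by decide)
    · intro i _ j _ hij
      rw [Function.onFun, Finset.disjoint_left]
      intro e hi hj
      rw [Finset.mem_filter] at hi hj
      rcases lt_or_gt_of_ne hij with h | h
      · have := hj.2.2 i h
        rw [hi.2.1] at this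
        exact absurd this (by decide)
      · have := hi.2.2 j h
        rw [hj.2.1] at this
        exact absurd this (by decide)

private theorem vt_upd {X : Type} {n : ℕ} (w : X) (a : Fin (n + 1) → X) (q1 : Fin (n + 2) → X)
    (j : Fin (n + 1)) (x : X) {e : Fin (n + 2) → Bool} (he : e j.succ = true) :
    vt (Fin.cons w (Function.update a j x) : Fin (n + 2) → X) q1 e = vt (Fin.cons w a) q1 e := by
  funext k
  unfold vt
  refine Fin.cases ?_ (fun i => ?_) k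
  · rfl
  · by_cases hi : i = j
    · subst hi
      rw [he]
      rfl
    · rw [Fin.cons_succ, Fin.cons_succ, Function.update_of_ne hi]

private theorem vt_one {X : Type} {n : ℕ} (w : X) (a : Fin (n + 1) → X) (q1 : Fin (n + 2) → X) :
    vt (Fin.cons w a : Fin (n + 2) → X) q1 (Fin.cons true fun _ => false) = Fin.cons (q1 0) a := by
  funext k
  unfold vt
  refine Fin.cases ?_ (fun i => ?_) k
  · rfl
  · rfl

/-- one fixed `q1` -/
private theorem stepb {X : Type} {n : ℕ} (B : Fin (n + 2) → Finset X) (Y : Fin (n + 2) → ℝ)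
    (hY : ∀ k, 1 ≤ Y k ∧ ((B k).card : ℝ) ≤ Y k) (hB : ∀ k, (B k).Nonempty)
    (I : (Fin (n + 2) → X) → ℂ) (hI : ∀ q, ‖I q‖ ≤ 1) (c : (Fin (n + 1) → X) → ℂ) (hc : ∀ a, ‖c a‖ ≤ 1)
    (q1 : Fin (n + 2) → X) (U : X → (Fin (n + 1) → X) → ℂ) (hU : ∀ w a, ‖U w a‖ ≤ 1) :
    (‖∑ a ∈ Fintype.piFinset (fun j : Fin (n + 1) => B j.succ), ∑ w ∈ B 0,
      (∏ e ∈ Finset.univ.filter (fun e : Fin (n + 2) → Bool => e ≠ fun _ => false),
        I (vt (Fin.cons w a) q1 e)) * c a * U w a‖ / ∏ k, Y k) ^ (2 ^ (n + 1)) ≤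
      (Y 0 * ∏ j : Fin (n + 1), Y j.succ ^ 2)⁻¹ *
        ∑ a' ∈ Fintype.piFinset (fun j : Fin (n + 1) => B j.succ),
          ∑ a ∈ Fintype.piFinset (fun j : Fin (n + 1) => B j.succ),
            ‖∑ w ∈ B 0, ∏ e : Fin (n + 1) → Bool, cj e (U w (vt a a' e))‖ := by
  have hcb := csb (n + 1) (B 0) (fun j => B j.succ) U
    (fun a => I (Fin.cons (q1 0) a) * c a)
    (fun j w a => ∏ e ∈ Finset.univ.filter
      (fun e : Fin (n + 2) → Bool => e j.succ = true ∧ ∀ i < j, e i.succ = false), I (vt (Fin.cons w a) q1 e))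
    hU (fun a => by
      rw [norm_mul]
      exact mul_le_one₀ (hI _) (norm_nonneg _) (hc _))
    (fun j w a => by
      rw [norm_prod]
      exact Finset.prod_le_one (fun _ _ => norm_nonneg _) fun _ _ => hI _)
    (fun j w a x => by
      refine Finset.prod_congr rfl fun e he => ?_
      rw [Finset.mem_filter] at he
      rw [vt_upd w a q1 j x he.2.1])
  have hsum : ∑ a ∈ Fintype.piFinset (fun j : Fin (n + 1) => B j.succ), ∑ w ∈ B 0,
      (∏ e ∈ Finset.univ.filter (fun e : Fin (n + 2) → Bool => e ≠ fun _ => false),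
        I (vt (Fin.cons w a) q1 e)) * c a * U w a =
      ∑ q ∈ Fintype.piFinset (fun j : Fin (n + 1) => B j.succ), ∑ w ∈ B 0,
        U w q * (I (Fin.cons (q1 0) q) * c q) * ∏ j : Fin (n + 1), ∏ e ∈ Finset.univ.filter
      (fun e : Fin (n + 2) → Bool => e j.succ = true ∧ ∀ i < j, e i.succ = false), I (vt (Fin.cons w q) q1 e) := by
    refine Finset.sum_congr rfl fun a _ => Finset.sum_congr rfl fun w _ => ?_
    rw [split_vt, vt_one]
    ring
  rw [hsum]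
  have hS := Finset.sum_nonneg fun a' (_ : a' ∈ Fintype.piFinset (fun j : Fin (n + 1) => B j.succ)) =>
    Finset.sum_nonneg fun a (_ : a ∈ Fintype.piFinset (fun j : Fin (n + 1) => B j.succ)) =>
      norm_nonneg (∑ w ∈ B 0, ∏ e : Fin (n + 1) → Bool, cj e (U w (vt a a' e)))
  revert hcb hS
  generalize ‖∑ q ∈ Fintype.piFinset (fun j : Fin (n + 1) => B j.succ), ∑ w ∈ B 0,
        U w q * (I (Fin.cons (q1 0) q) * c q) * ∏ j : Fin (n + 1), ∏ e ∈ Finset.univ.filter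
      (fun e : Fin (n + 2) → Bool => e j.succ = true ∧ ∀ i < j, e i.succ = false), I (vt (Fin.cons w q) q1 e)‖ = V
  generalize ∑ a' ∈ Fintype.piFinset (fun j : Fin (n + 1) => B j.succ),
          ∑ a ∈ Fintype.piFinset (fun j : Fin (n + 1) => B j.succ),
            ‖∑ w ∈ B 0, ∏ e : Fin (n + 1) → Bool, cj e (U w (vt a a' e))‖ = S
  intro hcb hS
  obtain ⟨M, hM⟩ : ∃ M, 2 ^ (n + 1) = M + 2 := ⟨2 ^ (n + 1) - 2, by
    have : 2 ≤ 2 ^ (n + 1) := by
      calc 2 = 2 ^ 1 := rfl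
        _ ≤ 2 ^ (n + 1) := Nat.pow_le_pow_right (by norm_num) (by omega)
    omega⟩
  rw [hM] at hcb ⊢
  have hc0 : (1 : ℝ) ≤ ((B 0).card : ℝ) := by exact_mod_cast (hB 0).card_pos
  have hcs : (1 : ℝ) ≤ ∏ k : Fin (n + 1), ((B k.succ).card : ℝ) := by
    have : 0 < ∏ k : Fin (n + 1), (B k.succ).card := Finset.prod_pos fun k _ => (hB k.succ).card_pos
    exact_mod_cast this
  have hcY : ∏ k : Fin (n + 1), ((B k.succ).card : ℝ) ≤ ∏ k : Fin (n + 1), Y k.succ :=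
    Finset.prod_le_prod (fun _ _ => by positivity) fun k _ => (hY k.succ).2
  have h0Y := (hY 0).2
  rw [Fin.prod_univ_succ Y, Finset.prod_pow]
  generalize ∏ k : Fin (n + 1), ((B k.succ).card : ℝ) = C at *
  generalize ∏ k : Fin (n + 1), Y k.succ = Z at *
  generalize ((B 0).card : ℝ) = c0 at *
  have hY0 : 0 < Y 0 := by linarith
  have hZ : 0 < Z := by linarith
  have h1 : V ^ (M + 2) ≤ c0 ^ (M + 1) * C ^ M * S := by
    refine le_of_mul_le_mul_right (a := c0 * C ^ 2) ?_ (by positivity)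
    calc V ^ (M + 2) * (c0 * C ^ 2) ≤ (c0 * C) ^ (M + 2) * S := hcb
      _ = c0 ^ (M + 1) * C ^ M * S * (c0 * C ^ 2) := by ring
  have h2 : c0 ^ (M + 1) * C ^ M * S ≤ Y 0 ^ (M + 1) * Z ^ M * S := by
    gcongr
  rw [div_pow, div_le_iff₀ (by positivity)]
  calc V ^ (M + 2) ≤ Y 0 ^ (M + 1) * Z ^ M * S := h1.trans h2
    _ = (Y 0 * Z ^ 2)⁻¹ * S * (Y 0 * Z) ^ (M + 2) := by
      field_simp
      ring

private theorem numl {ι : Type} (s : Finset ι) (n : ℕ) (F N P T Sg D : ℝ) (V W : ι → ℝ) (hF : 0 ≤ F) (hN : 1 ≤ N)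
    (hNP : N ≤ P) (hcard : (s.card : ℝ) = N) (hA : F ^ (2 ^ (n + 2)) * N ^ 2 ≤ N ^ (2 ^ (n + 2)) * T)
    (hT0 : 0 ≤ T) (hT : T ≤ ∑ i ∈ s, (P * Sg + V i)) (hV : ∀ i, 0 ≤ V i) (hD : 0 < D) (hSg0 : 0 ≤ Sg)
    (hSg : Sg ≤ n + 2) (hb : ∀ i ∈ s, (V i / P) ^ (2 ^ (n + 1)) ≤ D⁻¹ * W i) :
    (F / P) ^ (2 ^ (2 * n + 3)) ≤ (2 * (n + 2)) ^ (2 ^ (n + 1)) * (Sg + (P * D)⁻¹ * ∑ i ∈ s, W i) := by
  have hP : 0 < P := by linarith
  have hN0 : 0 < N := by linarith
  have e1 : (F / P) ^ (2 ^ (n + 2)) ≤ T / P ^ 2 := by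
    obtain ⟨k, hk⟩ : ∃ k, 2 ^ (n + 2) = k + 2 := ⟨2 ^ (n + 2) - 2, by
      have : 2 ≤ 2 ^ (n + 2) := by
        calc 2 = 2 ^ 1 := rfl
          _ ≤ 2 ^ (n + 2) := Nat.pow_le_pow_right (by norm_num) (by omega)
      omega⟩
    rw [hk] at hA ⊢
    have h1 : F ^ (k + 2) ≤ N ^ k * T := by
      refine le_of_mul_le_mul_right (a := N ^ 2) ?_ (by positivity)
      calc F ^ (k + 2) * N ^ 2 ≤ N ^ (k + 2) * T := hA
        _ = N ^ k * T * N ^ 2 := by ring
    have h2 : N ^ k * T ≤ P ^ k * T := by gcongr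
    rw [div_pow, div_le_div_iff₀ (by positivity) (by positivity)]
    calc F ^ (k + 2) * P ^ 2 ≤ P ^ k * T * P ^ 2 := by gcongr; exact h1.trans h2
      _ = T * P ^ (k + 2) := by ring
  have e2 : T / P ^ 2 ≤ Sg + (∑ i ∈ s, V i / P) / P := by
    rw [Finset.sum_add_distrib, Finset.sum_const, nsmul_eq_mul, hcard] at hT
    rw [div_le_iff₀ (by positivity), ← Finset.sum_div]
    have h1 : N * (P * Sg) ≤ P * (P * Sg) := by gcongr
    calc T ≤ N * (P * Sg) + ∑ i ∈ s, V i := hT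
      _ ≤ P * (P * Sg) + ∑ i ∈ s, V i := by linarith
      _ = (Sg + (∑ i ∈ s, V i) / P / P) * P ^ 2 := by
        field_simp
  have ht0 : 0 ≤ (∑ i ∈ s, V i / P) / P := by
    have : 0 ≤ ∑ i ∈ s, V i / P := Finset.sum_nonneg fun i _ => div_nonneg (hV i) hP.le
    positivity
  have e5 : ((∑ i ∈ s, V i / P) / P) ^ (2 ^ (n + 1)) ≤ (P * D)⁻¹ * ∑ i ∈ s, W i := by
    obtain ⟨m, hm⟩ : ∃ m, 2 ^ (n + 1) = m + 1 := ⟨2 ^ (n + 1) - 1, by
      have : 0 < 2 ^ (n + 1) := by positivity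
      omega⟩
    rw [hm] at hb ⊢
    have h1 := pow_sum_div_card_le_sum_pow (s := s) (f := fun i => V i / P)
      (fun i _ => div_nonneg (hV i) hP.le) m
    rw [hcard, div_le_iff₀ (by positivity)] at h1
    have h2 : ∑ i ∈ s, (V i / P) ^ (m + 1) ≤ D⁻¹ * ∑ i ∈ s, W i := by
      rw [Finset.mul_sum]
      exact Finset.sum_le_sum hb
    have h3 : 0 ≤ ∑ i ∈ s, (V i / P) ^ (m + 1) :=
      Finset.sum_nonneg fun i _ => pow_nonneg (div_nonneg (hV i) hP.le) _
    rw [div_pow, div_le_iff₀ (by positivity)]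
    calc (∑ i ∈ s, V i / P) ^ (m + 1) ≤ (∑ i ∈ s, (V i / P) ^ (m + 1)) * N ^ m := h1
      _ ≤ (∑ i ∈ s, (V i / P) ^ (m + 1)) * P ^ m := by gcongr
      _ ≤ (D⁻¹ * ∑ i ∈ s, W i) * P ^ m := by gcongr
      _ = (P * D)⁻¹ * (∑ i ∈ s, W i) * P ^ (m + 1) := by
        field_simp
        ring
  have hn : (0 : ℝ) ≤ n := Nat.cast_nonneg n
  have e4 : Sg ^ (2 ^ (n + 1)) ≤ ((n : ℝ) + 2) ^ (2 ^ (n + 1)) * Sg := by
    obtain ⟨m, hm⟩ : ∃ m, 2 ^ (n + 1) = m + 1 := ⟨2 ^ (n + 1) - 1, by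
      have : 0 < 2 ^ (n + 1) := by positivity
      omega⟩
    rw [hm, pow_succ]
    have h1 : Sg ^ m ≤ ((n : ℝ) + 2) ^ m := by gcongr
    have h2 : ((n : ℝ) + 2) ^ m ≤ ((n : ℝ) + 2) ^ (m + 1) := pow_le_pow_right₀ (by linarith) (by omega)
    exact mul_le_mul_of_nonneg_right (h1.trans h2) hSg0
  have hW0 : 0 ≤ (P * D)⁻¹ * ∑ i ∈ s, W i := le_trans (pow_nonneg ht0 _) e5
  have e3 := add_pow_le hSg0 ht0 (2 ^ (n + 1))
  have h2M : (2 : ℝ) ^ (2 ^ (n + 1) - 1) ≤ 2 ^ (2 ^ (n + 1)) :=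
    pow_le_pow_right₀ (by norm_num) (Nat.sub_le _ _)
  have hn1 : (1 : ℝ) ≤ ((n : ℝ) + 2) ^ (2 ^ (n + 1)) := one_le_pow₀ (by linarith)
  have he : (2 : ℕ) ^ (2 * n + 3) = 2 ^ (n + 2) * 2 ^ (n + 1) := by
    rw [← pow_add]
    congr 1
    ring
  rw [he, pow_mul, mul_pow]
  calc ((F / P) ^ (2 ^ (n + 2))) ^ (2 ^ (n + 1)) ≤ (Sg + (∑ i ∈ s, V i / P) / P) ^ (2 ^ (n + 1)) := by
        refine pow_le_pow_left₀ (by positivity) (e1.trans e2) _
    _ ≤ 2 ^ (2 ^ (n + 1) - 1) * (Sg ^ (2 ^ (n + 1)) + ((∑ i ∈ s, V i / P) / P) ^ (2 ^ (n + 1))) := e3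
    _ ≤ 2 ^ (2 ^ (n + 1)) * (((n : ℝ) + 2) ^ (2 ^ (n + 1)) * Sg + (P * D)⁻¹ * ∑ i ∈ s, W i) := by
        gcongr
    _ ≤ 2 ^ (2 ^ (n + 1)) * (((n : ℝ) + 2) ^ (2 ^ (n + 1)) * Sg +
          ((n : ℝ) + 2) ^ (2 ^ (n + 1)) * ((P * D)⁻¹ * ∑ i ∈ s, W i)) := by
        have := le_mul_of_one_le_left hW0 hn1
        gcongr 2 ^ (2 ^ (n + 1)) * (_ + ?_)
    _ = 2 ^ (2 ^ (n + 1)) * ((n : ℝ) + 2) ^ (2 ^ (n + 1)) * (Sg + (P * D)⁻¹ * ∑ i ∈ s, W i) := by ring

/-- the abstract form, with factors which miss a variable -/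
theorem bxh0 {X : Type} {n : ℕ} (B : Fin (n + 2) → Finset X) (Y : Fin (n + 2) → ℝ)
    (hY : ∀ k, 1 ≤ Y k ∧ ((B k).card : ℝ) ≤ Y k) (f : (Fin (n + 2) → X) → ℂ) (hf : ∀ q, ‖f q‖ ≤ 1)
    (h : Fin (n + 2) → (Fin (n + 2) → X) → ℂ) (hb : ∀ k q, ‖h k q‖ ≤ 1)
    (hm : ∀ k q x, h k (Function.update q k x) = h k q)
    (I : (Fin (n + 2) → X) → ℂ) (hI : ∀ q, ‖I q‖ ≤ 1) (c : (Fin (n + 2) → X) → (Fin (n + 1) → X) → ℂ)
    (hc : ∀ q1 a, ‖c q1 a‖ ≤ 1) (U : (Fin (n + 2) → X) → X → (Fin (n + 1) → X) → ℂ)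
    (hU : ∀ q1 w a, ‖U q1 w a‖ ≤ 1)
    (hU0 : ∀ q1 w a k, (Fin.cons w a : Fin (n + 2) → X) k = q1 k → U q1 w a = 0)
    (hid : ∀ q1 ∈ Fintype.piFinset B, ∀ w ∈ B 0, ∀ a ∈ Fintype.piFinset (fun j : Fin (n + 1) => B j.succ),
      (∀ k, (Fin.cons w a : Fin (n + 2) → X) k ≠ q1 k) →
      ∏ e : Fin (n + 2) → Bool, cj e (f (vt (Fin.cons w a) q1 e)) =
        (∏ e ∈ Finset.univ.filter (fun e : Fin (n + 2) → Bool => e ≠ fun _ => false),
          I (vt (Fin.cons w a) q1 e)) * c q1 a * U q1 w a) :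
    (‖∑ q ∈ Fintype.piFinset B, f q * ∏ k, h k q‖ / ∏ k, Y k) ^ (2 ^ (2 * n + 3)) ≤
      (2 * (n + 2)) ^ (2 ^ (n + 1)) * (∑ k, (Y k)⁻¹ +
        ((∏ k, Y k) * (Y 0 * ∏ j : Fin (n + 1), Y j.succ ^ 2))⁻¹ *
          ∑ q1 ∈ Fintype.piFinset B, ∑ a' ∈ Fintype.piFinset fun j : Fin (n + 1) => B j.succ,
            ∑ a ∈ Fintype.piFinset fun j : Fin (n + 1) => B j.succ,
              ‖∑ w ∈ B 0, ∏ e : Fin (n + 1) → Bool, cj e (U q1 w (vt a a' e))‖) := by
  have hYp : ∀ k, 0 < Y k := fun k => by linarith [(hY k).1]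
  have hPp : 0 < ∏ k, Y k := Finset.prod_pos fun k _ => hYp k
  have hW : ∀ q1, 0 ≤ ∑ a' ∈ Fintype.piFinset fun j : Fin (n + 1) => B j.succ,
      ∑ a ∈ Fintype.piFinset fun j : Fin (n + 1) => B j.succ,
        ‖∑ w ∈ B 0, ∏ e : Fin (n + 1) → Bool, cj e (U q1 w (vt a a' e))‖ := fun q1 =>
    Finset.sum_nonneg fun _ _ => Finset.sum_nonneg fun _ _ => norm_nonneg _
  have hR : 0 ≤ (2 * ((n : ℝ) + 2)) ^ (2 ^ (n + 1)) * (∑ k, (Y k)⁻¹ +
        ((∏ k, Y k) * (Y 0 * ∏ j : Fin (n + 1), Y j.succ ^ 2))⁻¹ *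
          ∑ q1 ∈ Fintype.piFinset B, ∑ a' ∈ Fintype.piFinset fun j : Fin (n + 1) => B j.succ,
            ∑ a ∈ Fintype.piFinset fun j : Fin (n + 1) => B j.succ,
              ‖∑ w ∈ B 0, ∏ e : Fin (n + 1) → Bool, cj e (U q1 w (vt a a' e))‖) := by
    have h1 := Finset.sum_nonneg fun q1 (_ : q1 ∈ Fintype.piFinset B) => hW q1
    have h2 : 0 ≤ Y 0 * ∏ j : Fin (n + 1), Y j.succ ^ 2 :=
      mul_nonneg (hYp 0).le (Finset.prod_nonneg fun j _ => sq_nonneg _)
    have h3 : 0 ≤ ∑ k, (Y k)⁻¹ := Finset.sum_nonneg fun k _ => (inv_pos.mpr (hYp k)).le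
    positivity
  by_cases hB : ∀ k, (B k).Nonempty
  swap
  · push Not at hB
    obtain ⟨k, hk⟩ := hB
    have : Fintype.piFinset B = ∅ := by
      rw [Finset.eq_empty_iff_forall_notMem]
      intro q hq
      rw [Fintype.mem_piFinset] at hq
      have := hq k
      rw [hk] at this
      exact absurd this (Finset.notMem_empty _)
    rw [this, Finset.sum_empty, norm_zero, zero_div, zero_pow (by positivity)]
    rw [this] at hR
    exact hR
  -- first Cauchy inequality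
  have hA := H42.BX.csh (n + 2) B f h hb hm
  -- the sum over the pairs
  have hT : ‖∑ q1 ∈ Fintype.piFinset B, ∑ q0 ∈ Fintype.piFinset B, ∏ e : Fin (n + 2) → Bool,
      cj e (f (vt q0 q1 e))‖ ≤
      ∑ q1 ∈ Fintype.piFinset B, ((∏ k, Y k) * ∑ k, (Y k)⁻¹ +
        ‖∑ a ∈ Fintype.piFinset (fun j : Fin (n + 1) => B j.succ), ∑ w ∈ B 0,
          (∏ e ∈ Finset.univ.filter (fun e : Fin (n + 2) → Bool => e ≠ fun _ => false),
            I (vt (Fin.cons w a) q1 e)) * c q1 a * U q1 w a‖) := by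
    refine (norm_sum_le _ _).trans (Finset.sum_le_sum fun q1 hq1 => ?_)
    have hR2 : ∑ a ∈ Fintype.piFinset (fun j : Fin (n + 1) => B j.succ), ∑ w ∈ B 0,
          (∏ e ∈ Finset.univ.filter (fun e : Fin (n + 2) → Bool => e ≠ fun _ => false),
            I (vt (Fin.cons w a) q1 e)) * c q1 a * U q1 w a =
        ∑ q0 ∈ (Fintype.piFinset B).filter (fun q => ¬ ∃ k, q k = q1 k), ∏ e : Fin (n + 2) → Bool,
          cj e (f (vt q0 q1 e)) := by
      rw [Finset.sum_filter]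
      refine Eq.trans ?_ (sum_pi B _).symm
      refine Finset.sum_congr rfl fun a ha => Finset.sum_congr rfl fun w hw => ?_
      split_ifs with h
      · obtain ⟨k, hk⟩ := h
        rw [hU0 q1 w a k hk, mul_zero]
      · push Not at h
        exact (hid q1 hq1 w hw a ha h).symm
    rw [hR2, ← Finset.sum_filter_add_sum_filter_not (Fintype.piFinset B) (fun q => ∃ k, q k = q1 k)]
    refine (norm_add_le _ _).trans (add_le_add ?_ le_rfl)
    refine (norm_sum_le _ _).trans ?_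
    refine (Finset.sum_le_card_nsmul _ _ 1 fun q0 _ => ?_).trans ?_
    · rw [norm_prod]
      refine Finset.prod_le_one (fun _ _ => norm_nonneg _) fun e _ => ?_
      rw [cj_norm]
      exact hf _
    · rw [nsmul_eq_mul, mul_one]
      exact deg_card B Y hY q1
  refine numl (Fintype.piFinset B) n _ (∏ k, ((B k).card : ℝ)) (∏ k, Y k) _ (∑ k, (Y k)⁻¹)
    (Y 0 * ∏ j : Fin (n + 1), Y j.succ ^ 2) _ _ (norm_nonneg _) ?_ ?_ ?_ hA (norm_nonneg _) hT
    (fun _ => norm_nonneg _) ?_ (Finset.sum_nonneg fun k _ => (inv_pos.mpr (hYp k)).le) ?_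
    (fun q1 _ => stepb B Y hY hB I hI (c q1) (hc q1) q1 (U q1) (hU q1))
  · have : 0 < ∏ k, (B k).card := Finset.prod_pos fun k _ => (hB k).card_pos
    exact_mod_cast this
  · exact Finset.prod_le_prod (fun _ _ => by positivity) fun k _ => (hY k).2
  · rw [Fintype.card_piFinset]
    push_cast
    rfl
  · exact mul_pos (hYp 0) (Finset.prod_pos fun j _ => pow_pos (hYp _) 2)
  · refine (Finset.sum_le_card_nsmul Finset.univ (fun k => (Y k)⁻¹) 1
      fun k _ => inv_le_one_of_one_le₀ (hY k).1).trans ?_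
    rw [Finset.card_univ, Fintype.card_fin, nsmul_eq_mul, mul_one]
    push_cast
    exact le_rfl

variable {K : Type} [Field K] [NumberField K] {Ω : Type} [Field Ω] [Algebra K Ω]
  {p : ℕ} {ζ : K} {D : RD0 K p ζ} {q n : ℕ} {Qg Lm : Type} [Group Qg] [MulAction Qg Lm]
  {A : GS D Ω}

/-- the sum over `q1`, `a'`, `a` of the inner sums over `w` -/
def S3c [Fintype Lm] (y : Cy D A) (r : Cm K Ω n Qg) (v : Cv q n Qg Lm)
    (B : Fin (n + 2) → Finset (Pl K)) : ℝ :=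
  ∑ q1 ∈ Fintype.piFinset B, ∑ a' ∈ Fintype.piFinset fun j : Fin (n + 1) => B j.succ,
    ∑ a ∈ Fintype.piFinset fun j : Fin (n + 1) => B j.succ,
      ‖∑ w ∈ B 0, ∏ e : Fin (n + 1) → Bool, cj e (Uc y r v q1 w (vt a a' e))‖

theorem bxc1 [Fintype Lm] (y : Cy D A) {r : Cm K Ω n Qg} {v : Cv q n Qg Lm} (hr : r.Ok y v)
    (B : Fin (n + 2) → Finset (Pl K)) (X : Fin (n + 2) → ℝ)
    (hB : ∀ k, ∀ w ∈ B k, w ∈ y.Z ∧ (nm w).Prime) (hX : ∀ k, 1 ≤ X k ∧ ((B k).card : ℝ) ≤ X k)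
    (c : r.Cl) :
    (‖∑ q ∈ Fintype.piFinset B, fx r c q * ∏ k, r.h k q‖ / ∏ k, X k) ^ (2 ^ (2 * n + 3)) ≤
      (2 * (n + 2)) ^ (2 ^ (n + 1)) * (∑ k, (X k)⁻¹ +
        ((∏ k, X k) * (X 0 * ∏ j : Fin (n + 1), X j.succ ^ 2))⁻¹ * S3c y r v B) := by
  refine bxh0 B X hX (fx r c) (fx_le r hr.F c) r.h hr.h hr.hk (fun q => if Icl r c q then 1 else 0) ?_
    (fun q1 a => if r.F q1 = 0 then 0 else r.B q1 a) ?_
    (fun q1 w a => Uc y r v q1 w a) (fun q1 w a => uc_le y r v q1 w a) ?_ ?_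
  · intro q
    split_ifs
    · rw [norm_one]
    · rw [norm_zero]
      exact zero_le_one
  · intro q1 a
    split_ifs
    · rw [norm_zero]
      exact zero_le_one
    · exact hr.B q1 a
  · intro q1 w a k hk
    show Uc y r v q1 w a = 0
    unfold Uc
    rw [if_neg]
    rintro ⟨h, _⟩
    exact h.2.2 k k hk
  · intro q1 hq1 w hw a ha hne
    rw [Fintype.mem_piFinset] at hq1 ha
    have h1 : ∀ k, (Fin.cons w a : Fin (n + 2) → Pl K) k ∈ B k := by
      intro k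
      refine Fin.cases ?_ (fun j => ?_) k
      · exact hw
      · exact ha j
    exact idc y hr c q1 w a (fun k => ⟨(hB k _ (h1 k)).1, (hB k _ (hq1 k)).1⟩)
      (fun k => ⟨(hB k _ (h1 k)).2, (hB k _ (hq1 k)).2⟩) hne

theorem bxc [Fintype Lm] (y : Cy D A) {r : Cm K Ω n Qg} {v : Cv q n Qg Lm} (hr : r.Ok y v)
    (B : Fin (n + 2) → Finset (Pl K)) (X : Fin (n + 2) → ℝ)
    (hB : ∀ k, ∀ w ∈ B k, w ∈ y.Z ∧ (nm w).Prime) (hX : ∀ k, 1 ≤ X k ∧ ((B k).card : ℝ) ≤ X k) :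
    (‖∑ q ∈ Fintype.piFinset B, r.F q * ∏ k, r.h k q‖ / ∏ k, X k) ^ (2 ^ (2 * n + 3)) ≤
      (Nat.card r.Cl : ℝ) ^ (2 ^ (2 * n + 3)) * (2 * (n + 2)) ^ (2 ^ (n + 1)) * (∑ k, (X k)⁻¹ +
        ((∏ k, X k) * (X 0 * ∏ j : Fin (n + 1), X j.succ ^ 2))⁻¹ * S3c y r v B) := by
  have hcf := hr.fin
  have := Fintype.ofFinite r.Cl
  have hM : 2 ^ (2 * n + 3) ≠ 0 := pow_ne_zero _ two_ne_zero
  have hX0 : 0 < ∏ k, X k := Finset.prod_pos fun k _ => zero_lt_one.trans_le (hX k).1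
  have hsum : ∀ q, r.F q = ∑ c, fx r c q := by
    intro q
    by_cases hq : Adm r.T q
    · rw [Finset.sum_eq_single (r.cel q)]
      · rw [fx, if_pos ⟨hq, rfl⟩]
      · intro c _ hc
        rw [fx, if_neg fun h => hc h.2.symm]
      · intro h
        exact absurd (Finset.mem_univ _) h
    · rw [Finset.sum_eq_zero fun c _ => by rw [fx, if_neg fun h => hq h.1], hr.F0 q hq]
  have h1 : ∑ q ∈ Fintype.piFinset B, r.F q * ∏ k, r.h k q =
      ∑ c, ∑ q ∈ Fintype.piFinset B, fx r c q * ∏ k, r.h k q := by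
    rw [Finset.sum_comm]
    refine Finset.sum_congr rfl fun q _ => ?_
    rw [hsum q, Finset.sum_mul]
  have h2 : ‖∑ q ∈ Fintype.piFinset B, r.F q * ∏ k, r.h k q‖ / ∏ k, X k ≤
      ∑ c, ‖∑ q ∈ Fintype.piFinset B, fx r c q * ∏ k, r.h k q‖ / ∏ k, X k := by
    rw [h1, ← Finset.sum_div]
    exact div_le_div_of_nonneg_right (norm_sum_le _ _) hX0.le
  have h0 : 0 ≤ ‖∑ q ∈ Fintype.piFinset B, r.F q * ∏ k, r.h k q‖ / ∏ k, X k :=
    div_nonneg (norm_nonneg _) hX0.le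
  have hc := bxc1 y hr B X hB hX
  rcases isEmpty_or_nonempty r.Cl with he | hne
  · rw [Finset.univ_eq_empty (α := r.Cl), Finset.sum_empty] at h2
    rw [le_antisymm h2 h0, zero_pow hM, Nat.card_of_isEmpty]
    simp only [Nat.cast_zero, zero_pow hM, zero_mul, le_refl]
  · obtain ⟨c, -, hcm⟩ := Finset.exists_max_image Finset.univ
      (fun c : r.Cl => ‖∑ q ∈ Fintype.piFinset B, fx r c q * ∏ k, r.h k q‖ / ∏ k, X k)
      Finset.univ_nonempty
    have h3 : ‖∑ q ∈ Fintype.piFinset B, r.F q * ∏ k, r.h k q‖ / ∏ k, X k ≤ (Nat.card r.Cl : ℝ) *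
        (‖∑ q ∈ Fintype.piFinset B, fx r c q * ∏ k, r.h k q‖ / ∏ k, X k) := by
      refine h2.trans ?_
      refine (Finset.sum_le_card_nsmul _ _ _ fun c' hc' => hcm c' hc').trans ?_
      rw [Nat.card_eq_fintype_card, nsmul_eq_mul, Finset.card_univ]
    calc (‖∑ q ∈ Fintype.piFinset B, r.F q * ∏ k, r.h k q‖ / ∏ k, X k) ^ (2 ^ (2 * n + 3))
        ≤ ((Nat.card r.Cl : ℝ) *
          (‖∑ q ∈ Fintype.piFinset B, fx r c q * ∏ k, r.h k q‖ / ∏ k, X k)) ^ (2 ^ (2 * n + 3)) :=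
          pow_le_pow_left₀ h0 h3 _
      _ = (Nat.card r.Cl : ℝ) ^ (2 ^ (2 * n + 3)) *
          (‖∑ q ∈ Fintype.piFinset B, fx r c q * ∏ k, r.h k q‖ / ∏ k, X k) ^ (2 ^ (2 * n + 3)) :=
          mul_pow _ _ _
      _ ≤ (Nat.card r.Cl : ℝ) ^ (2 ^ (2 * n + 3)) * ((2 * (n + 2)) ^ (2 ^ (n + 1)) *
          (∑ k, (X k)⁻¹ + ((∏ k, X k) * (X 0 * ∏ j : Fin (n + 1), X j.succ ^ 2))⁻¹ *
            S3c y r v B)) := mul_le_mul_of_nonneg_left (hc c) (by positivity)
      _ = _ := (mul_assoc _ _ _).symm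

end H62.BM
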