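import Pool.Agent.H62.BL.Rw
import Pool.Agent.H62.BM.Cid

/-!
# H62 BM CRW: the function `gg` is raw of order `q` (CORE of BLX)

As H62/BL/Rwq.lean, coefficients modulo `q`, `f ^ q = 1`. `cjc_ep`: `cj e (ep q x) = ep q (sg e * x)` for every `q`.
-/

set_option autoImplicit false

open scoped NumberField
open IsDedekindDomain
open scoped Classical

noncomputable section

namespace H62.BM

open H63.MA H38.BB H38.BG H57.PC H57.BRA H77.WD H77.WE H57.GP H62.BL

private theorem crw_sg {m : ℕ} {R : Type} [CommRing R] (e : Fin m → Bool) :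
    H62.BL.sg R e = (-1) ^ (Finset.univ.filter fun k => e k = false).card := by
  unfold H62.BL.sg
  rw [Finset.prod_ite, Finset.prod_const_one, one_mul, Finset.prod_const]
  simp only [Bool.not_eq_true]

theorem cjc_ep {m q : ℕ} [NeZero q] (e : Fin m → Bool) (x : ZMod q) :
    cj e (ep q x) = ep q (H62.BL.sg (ZMod q) e * x) := by
  unfold cj
  rw [crw_sg]
  split_ifs with h
  · rw [h.neg_one_pow, one_mul]
  · rw [Nat.not_even_iff_odd] at h
    rw [h.neg_one_pow, neg_one_mul]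
    exact epc_conj x

section

variable {q n : ℕ} {Qg Lm : Type} [Group Qg] [MulAction Qg Lm] [Fintype Lm]

theorem Cv.Inv.zpow {v : Cv q n Qg Lm} (h : v.Inv) (i : ℤ)
    (c : List (Lr (Fin (n + 2)) Lm) → ZMod q) : v.kp (qa (v.f ^ i) c) = v.kp c := by
  obtain ⟨S, hS⟩ : ∃ S : Subgroup Qg, ∀ x, x ∈ S ↔
      ∀ c : List (Lr (Fin (n + 2)) Lm) → ZMod q, v.kp (qa x c) = v.kp c :=
    ⟨{ carrier := {x | ∀ c : List (Lr (Fin (n + 2)) Lm) → ZMod q, v.kp (qa x c) = v.kp c}
       one_mem' := fun c => by rw [qa_one]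
       mul_mem' := fun {a b} ha hb c => by rw [qa_mul, ha, hb]
       inv_mem' := fun {a} ha c => by
         have h1 := ha (qa a⁻¹ c)
         rw [← qa_mul, mul_inv_cancel, qa_one] at h1
         exact h1.symm }, fun x => Iff.rfl⟩
  exact (hS _).1 (Subgroup.zpow_mem S ((hS _).2 h) i) c

theorem crw_kp (v : Cv q n Qg Lm) {a b : UGd q n Qg Lm} (ha : rwl a)
    (hl : ∀ c, v.kp (qa a.q c) = v.kp c) :
    v.kp (a * b).c = v.kp a.c + v.kp b.c := by
  rw [← hl b.c]
  unfold Cv.kp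
  rw [← Finset.sum_add_distrib]
  refine Finset.sum_congr rfl fun t _ => ?_
  rw [rwl_mul_c ha (List.ofFn t) (by rw [List.ofFn_succ]; simp) (by rw [List.length_ofFn]), add_mul]

/-- the exponent -/
def rwc (v : Cv q n Qg Lm) (x : (Fin (n + 1) → Bool) → UGd q n Qg Lm) : ZMod q :=
  ∑ e, H62.BL.sg (ZMod q) e * -v.kp (x e).c

theorem rwc_add (v : Cv q n Qg Lm) (x y : (Fin (n + 1) → Bool) → UGd q n Qg Lm)
    (hx : ∀ e, rwl (x e) ∧ ∀ c, v.kp (qa (x e).q c) = v.kp c) : rwc v (x * y) = rwc v x + rwc v y := by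
  unfold rwc
  rw [← Finset.sum_add_distrib]
  refine Finset.sum_congr rfl fun e _ => ?_
  rw [Pi.mul_apply, crw_kp v (hx e).1 (hx e).2]
  ring

private theorem crw_prod [NeZero q] {ι : Type} (s : Finset ι) (f : ι → ZMod q) :
    ∏ i ∈ s, ep q (f i) = ep q (∑ i ∈ s, f i) := by
  induction s using Finset.induction_on with
  | empty => rw [Finset.prod_empty, Finset.sum_empty, ep_zero]
  | insert i s hi ih => rw [Finset.prod_insert hi, Finset.sum_insert hi, epc_add, ih]

theorem rw_gg [NeZero q] (v : Cv q n Qg Lm) (x : (Fin (n + 1) → Bool) → UGd q n Qg Lm) :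
    gg v x = if ∀ e, (x e).q = v.f ∧ rwl (x e) then ep q (rwc v x) else 0 := by
  unfold gg
  by_cases h : ∀ e, (x e).q = v.f ∧ rwl (x e)
  · rw [if_pos h]
    unfold rwc
    rw [← crw_prod]
    refine Finset.prod_congr rfl fun e _ => ?_
    have h1 : g1 v (x e) = ep q (-v.kp (x e).c) := if_pos (h e)
    rw [h1, cjc_ep]
  · rw [if_neg h]
    push Not at h
    obtain ⟨e, he⟩ := h
    refine Finset.prod_eq_zero (Finset.mem_univ e) ?_
    have h1 : g1 v (x e) = 0 := if_neg fun h2 => he h2.1 h2.2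
    rw [h1, cjc_zero]

/-- the map of `ZMod p` to `ZMod (p * c)` given by multiplication by `c` -/
private def tqc (p c : ℕ) (a : ZMod p) : ZMod (p * c) := ((c * a.val : ℕ) : ZMod (p * c))

private theorem tqc_add {p : ℕ} [NeZero p] (c : ℕ) (a b : ZMod p) :
    tqc p c (a + b) = tqc p c a + tqc p c b := by
  unfold tqc
  rw [← Nat.cast_add, ZMod.natCast_eq_natCast_iff, ← mul_add, mul_comm p c]
  refine Nat.ModEq.mul_left' c ?_
  rw [ZMod.val_add]
  exact Nat.mod_modEq _ _

private theorem tqc_ep {p : ℕ} [NeZero p] {c : ℕ} (hc : 0 < c) (a : ZMod p) :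
    ep (p * c) (tqc p c a) = ep p a := by
  unfold ep tqc
  have h1 : c * a.val < p * c := by
    rw [mul_comm p c]
    exact Nat.mul_lt_mul_of_pos_left (ZMod.val_lt a) hc
  rw [ZMod.val_natCast_of_lt h1]
  congr 2
  have hp : (p : ℂ) ≠ 0 := by exact_mod_cast NeZero.ne p
  have hc' : (c : ℂ) ≠ 0 := by exact_mod_cast hc.ne'
  push_cast
  field_simp

/-- `gg` is raw of order `E = q * c` if `f ^ E = 1` -/
theorem raw_gg [NeZero q] {v : Cv q n Qg Lm} (hv : v.Inv) {E c : ℕ} (hc : 0 < c) (hE : E = q * c)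
    (he : v.f ^ E = 1) (b : ℕ) (hb : E ≤ b) : Raw E b (gg v) := by
  have hκ' : Lc (rwT q n Lm v.f) (rwc v) := by
    rintro x ⟨i, hi⟩ y -
    exact rwc_add v x y fun e => ⟨(hi e).2, by rw [(hi e).1]; exact hv.zpow i⟩
  have hq0 : 0 < q := Nat.pos_of_ne_zero (NeZero.ne q)
  have hE0 : 0 < E := by
    rw [hE]
    exact Nat.mul_pos hq0 hc
  have : NeZero E := ⟨hE0.ne'⟩
  obtain ⟨kx, hkx⟩ : ∃ kx : ((Fin (n + 1) → Bool) → UGd q n Qg Lm) → ZMod E,
      Lc (rwT q n Lm v.f) kx ∧ ∀ x, ep E (kx x) = ep q (rwc v x) := by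
    subst hE
    refine ⟨fun x => tqc q c (rwc v x), fun x hx y hy => ?_, fun x => tqc_ep hc _⟩
    change tqc q c (rwc v (x * y)) = _
    rw [hκ' x hx y hy, tqc_add]
  obtain ⟨M, hM⟩ := orderOf_dvd_of_pow_eq_one he
  have hM0 : (M : ℤ) ≠ 0 := by
    intro h
    have h1 : M = 0 := by exact_mod_cast h
    rw [h1, mul_zero] at hM
    omega
  have hMq : (E : ℤ) = (M : ℤ) * (orderOf v.f : ℤ) := by
    conv_lhs => rw [hM]
    push_cast
    ring
  have e0 : Fin (n + 1) → Bool := fun _ => true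
  obtain ⟨ix, hix⟩ : ∃ ix : ((Fin (n + 1) → Bool) → UGd q n Qg Lm) → ZMod E,
      ∀ x, ∀ i : ℤ, (∀ e, (x e).q = v.f ^ i ∧ rwl (x e)) → ix x = ((M * i : ℤ) : ZMod E) := by
    refine ⟨fun x => if h : ∃ i : ℤ, (x e0).q = v.f ^ i then ((M * h.choose : ℤ) : ZMod E) else 0, fun x i hi => ?_⟩
    have h : ∃ i : ℤ, (x e0).q = v.f ^ i := ⟨i, (hi e0).1⟩
    refine (dif_pos h).trans ?_
    have h1 := (hi e0).1.symm.trans h.choose_spec
    rw [zpow_eq_zpow_iff_modEq] at h1
    refine ((ZMod.intCast_eq_intCast_iff _ _ E).2 ?_).symm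
    rw [hMq]
    exact Int.ModEq.mul_left' h1
  have hixa : Lc (rwT q n Lm v.f) ix := by
    rintro x ⟨i, hi⟩ y ⟨j, hj⟩
    rw [hix x i hi, hix y j hj, hix (x * y) (i + j) fun e => ⟨?_, rwl_mul (hi e).2 (hj e).2⟩, mul_add,
      Int.cast_add]
    rw [zpow_add, ← (hi e).1, ← (hj e).1]
    rfl
  refine rw_raw (ι := ZMod E) (by rw [ZMod.card]; exact hb) (fun j => (E : ℂ)⁻¹ * ep E (-(j * (M : ZMod E))))
    (rwT q n Lm v.f) (fun j x => j * ix x + kx x) _ (fun j => ?_) (fun j => ?_)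
    fun x => ?_
  · rw [norm_mul, ep_norm, mul_one, norm_inv, Complex.norm_natCast]
    have h1 : (1 : ℝ) ≤ E := by exact_mod_cast hE0
    have h2 : (E : ℝ) ≤ b := by exact_mod_cast hb
    exact (inv_le_one_of_one_le₀ h1).trans (h1.trans h2)
  · intro x hx y hy
    change j * ix (x * y) + kx (x * y) = j * ix x + kx x + (j * ix y + kx y)
    rw [hixa x hx y hy, hkx.1 x hx y hy]
    ring
  · rw [rw_gg]
    unfold th
    by_cases hx : x ∈ rwT q n Lm v.f
    · simp only [if_pos hx]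
      have h1 : ∀ j : ZMod E, (E : ℂ)⁻¹ * ep E (-(j * (M : ZMod E))) * ep E (j * ix x + kx x) =
          (E : ℂ)⁻¹ * ep E (kx x) * ep E (j * (ix x - (M : ZMod E))) := by
        intro j
        have h2 : ep E (-(j * (M : ZMod E))) * ep E (j * ix x + kx x) =
            ep E (kx x) * ep E (j * (ix x - (M : ZMod E))) := by
          rw [← epc_add, ← epc_add]
          congr 1
          ring
        rw [mul_assoc, h2, ← mul_assoc]
      rw [Finset.sum_congr rfl fun j _ => h1 j, ← Finset.mul_sum, epc_sum]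
      obtain ⟨i, hi⟩ := hx
      have h3 : ix x - (M : ZMod E) = 0 ↔ ∀ e, (x e).q = v.f ∧ rwl (x e) := by
        have h6 : (M : ZMod E) = ((M * 1 : ℤ) : ZMod E) := by
          push_cast
          ring
        rw [sub_eq_zero, hix x i hi, h6, ZMod.intCast_eq_intCast_iff]
        have h7 : ((M : ℤ) * i ≡ (M : ℤ) * 1 [ZMOD E]) ↔ i ≡ 1 [ZMOD orderOf v.f] := by
          constructor
          · intro h8
            rw [hMq, Int.modEq_iff_dvd, ← mul_sub] at h8
            exact Int.modEq_iff_dvd.2 (Int.dvd_of_mul_dvd_mul_left hM0 h8)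
          · intro h8
            rw [hMq]
            exact Int.ModEq.mul_left' h8
        rw [h7]
        constructor
        · intro h4 e
          refine ⟨?_, (hi e).2⟩
          rw [(hi e).1]
          rw [← zpow_eq_zpow_iff_modEq, zpow_one] at h4
          exact h4
        · intro h4
          have h5 := (h4 e0).1
          rw [(hi e0).1, ← zpow_one v.f, ← zpow_mul, one_mul, zpow_eq_zpow_iff_modEq] at h5
          exact h5
      simp only [h3]
      split_ifs
      · have h4 : (E : ℂ) ≠ 0 := by exact_mod_cast hE0.ne'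
        rw [← hkx.2 x]
        field_simp
      · rw [mul_zero]
    · simp only [if_neg hx, mul_zero, Finset.sum_const_zero]
      refine if_neg fun h => hx ⟨1, fun e => ⟨by rw [zpow_one]; exact (h e).1, (h e).2⟩⟩

end

end H62.BM
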