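import Pool.Agent.H62.BL.Gb
import Pool.Agent.H57.GP.Gpv
import Pool.Agent.H62.BM.Crw

/-!
# H62 BM CGB: the black box for the inner function `gg` (CORE of BLX)

* `GPC D Ω q b`: for families of homomorphisms `Φ i` to the product of the groups of words of order at most `b`: the sums over the Frobenius elements of the mean
  of the conjugates of `gg` are small. `gbc`: `GPC D Ω q b` from `GPR D Ω (q * p ^ e)`, `b < p ^ (e + 1)`.
-/

set_option autoImplicit false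

open scoped NumberField
open IsDedekindDomain
open scoped Classical

noncomputable section

namespace H62.BM

open H63.MA H38.BB H38.BG H57.PC H57.BRA H77.WD H77.WE H77.GL H57.AN H35.UB H57.GP H62.BL

/-- the black box for the function `gg` -/
def GPC {K : Type} [Field K] [NumberField K] {p : ℕ} {ζ : K} (D : RD0 K p ζ) (Ω : Type) [Field Ω]
    [Algebra K Ω] (q b : ℕ) : Prop :=
  ∀ (C₁ A : ℕ) (ε : ℝ), 0 < ε → ∃ Y₀ : ℝ, ∀ Y : ℝ, Y₀ ≤ Y → ∀ (L : LDs D Ω) (Fr : FR L)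
    (ι : Type) (I : Finset ι) (m : ι → Finset (Pl K)) (x : ι → ℝ),
    (∀ i ∈ I, nr (m i) ≤ Y ^ C₁ ∧ ((m i).card : ℝ) ≤ C₁ * Real.log (Real.log Y)) →
    (∀ i ∈ I, Real.exp (Real.log Y ^ ε) ≤ x i ∧ x i ≤ Y ^ C₁) →
    (∀ s, ((I.filter fun i => m i = s).card : ℝ) ≤ Real.log Y ^ C₁) →
    ∀ (n : ℕ) (Qg Lm : Type) [Group Qg] [MulAction Qg Lm] [Fintype Lm] [Finite Qg]
      [Finite (UGd q n Qg Lm)] (v : Cv q n Qg Lm), v.Inv → IsPGroup p Qg →
      Nat.card ((Fin (n + 1) → Bool) → UGd q n Qg Lm) ≤ b →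
      ∀ Φ : ι → Gal(Ω/K) →* ((Fin (n + 1) → Bool) → UGd q n Qg Lm),
      (∀ i ∈ I, Unz L (m i) (Φ i) ∧ ∃ (τ : Gal(Ω/K)) (c : ℂ), c ≠ 1 ∧
        ∀ y, gg v (Φ i τ * y) = c * gg v y) →
      ∑ i ∈ I, (nr (m i))⁻¹ * (x i)⁻¹ *
          ‖∑ w ∈ (PB K (x i)).filter (fun w => D.Gd w ∧ w ∉ m i),
            av (Φ i) (gg v) (Φ i (Fr.F w))‖ ≤ Real.log Y ^ (-(A : ℝ))

theorem gbc {K : Type} [Field K] [NumberField K] {p : ℕ} {ζ : K} (D : RD0 K p ζ) (Ω : Type)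
    [Field Ω] [Algebra K Ω] {q : ℕ} (hq : Pw p q) (b e : ℕ)
    (he : b < p ^ (e + 1)) (hR : GPR D Ω (q * p ^ e)) : GPC D Ω q b := by
  intro C₁ A ε hε
  obtain ⟨Y₀, hY₀⟩ := hR (max b (q * p ^ e)) C₁ A ε hε
  refine ⟨Y₀, fun Y hY L Fr ι I m x hm hx hc n Qg Lm _ _ _ _ _ v hv hQ hcard Φ hΦ => ?_⟩
  have hne : NeZero q := hq.neZero
  have hQb : Nat.card Qg ≤ b := by
    refine le_trans ?_ hcard
    refine (card_q (q := q) (n := n) (Lm := Lm)).trans ?_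
    refine Nat.card_le_card_of_injective (fun x _ => x) fun x y h => ?_
    exact congrFun h fun _ => false
  have hf : v.f ^ (q * p ^ e) = 1 := by
    have hF : Fact p.Prime := ⟨hq.prime⟩
    obtain ⟨k, hk⟩ := IsPGroup.iff_card.1 hQ
    have hkb : k ≤ e := by
      rw [hk] at hQb
      have h1 := (Nat.pow_lt_pow_iff_right hq.prime.one_lt).1 (hQb.trans_lt he)
      omega
    have h2 : v.f ^ (p ^ k) = 1 := by
      rw [← hk]
      exact pow_card_eq_one'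
    obtain ⟨d, hd⟩ : p ^ k ∣ q * p ^ e := Dvd.dvd.mul_left (pow_dvd_pow p hkb) q
    rw [hd, pow_mul, h2, one_pow]
  have hft : Fintype ((Fin (n + 1) → Bool) → UGd q n Qg Lm) := Fintype.ofFinite _
  have hF : Fact p.Prime := ⟨hq.prime⟩
  have hpg : IsPGroup p ((Fin (n + 1) → Bool) → UGd q n Qg Lm) := by
    obtain ⟨k, hk⟩ := IsPGroup.iff_card.1 (pg_ug (n := n) (Lm := Lm) hq hQ)
    refine IsPGroup.of_card (n := k * Nat.card (Fin (n + 1) → Bool)) ?_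
    rw [Nat.card_fun, hk, pow_mul]
  have h := hY₀ Y hY L Fr ι I m x hm hx hc (fun _ => (Fin (n + 1) → Bool) → UGd q n Qg Lm) Φ
    (fun i => av (Φ i) (gg v)) (fun i hi => ⟨?_, hpg.to_subgroup _,
      ⟨_, raw_sub _ _ (raw_gg hv (pow_pos hq.prime.pos e) rfl hf _ (le_max_right _ _)), gpv_av (Φ i) (gg v)⟩, (hΦ i hi).1.1,
      (hΦ i hi).1.2⟩)
  · refine le_trans (le_of_eq ?_) h
    refine Finset.sum_congr rfl fun i hi => ?_
    obtain ⟨τ, c, hc1, hτ⟩ := (hΦ i hi).2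
    congr 2
    refine Finset.sum_congr rfl fun w _ => ?_
    have h1 : mr (Φ i) (av (Φ i) (gg v)) = 0 := av_mean (Φ i) (gg v) τ c hc1 hτ
    rw [h1, sub_zero]
  · refine le_trans (Finset.card_le_card (Finset.filter_subset _ _)) ?_
    rw [Finset.card_univ, ← Nat.card_eq_fintype_card]
    exact hcard.trans (le_max_left _ _)

end H62.BM
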