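import Pool.Agent.H62.BL.Hh
import Pool.Agent.H62.BM.Cid

/-!
# H62 BM CHH: the inner sum over `w` as a sum of a function of `Φ (F_w)` (CORE of BLX)

`Tt`, `Dst` as in H62/BL/Hh.lean. `Phc`: the homomorphism to the product of the groups of the vertices. `hc_sum`, `hc_zero`, `hc_nd` as `hh_sum`, `hh_zero`, `hh_nd`.
-/

set_option autoImplicit false

open scoped NumberField
open IsDedekindDomain
open scoped Classical

noncomputable section

namespace H62.BM

open H63.MA H38.BB H38.BG H57.PC H57.BRA H77.WD H77.WE H62.BL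

variable {K : Type} [Field K] [NumberField K] {Ω : Type} [Field Ω] [Algebra K Ω]
  {p : ℕ} {ζ : K} {D : RD0 K p ζ} {q n : ℕ} {Qg Lm : Type} [Group Qg] [MulAction Qg Lm]
  {A : GS D Ω}

/-- the hom to the product of the groups of the vertices -/
structure Phc (y : Cy D A) (r : Cm K Ω n Qg) (v : Cv q n Qg Lm) (b a' a : Fin (n + 1) → Pl K)
    (Φ : Gal(Ω/K) →* ((Fin (n + 1) → Bool) → UGd q n Qg Lm)) : Prop where
  unz : Unz y.L (Tt r.T b a' a) Φ
  hat : ∀ z e, hat y.L A Φ z e = relc y r v (vt a a' e) b z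

theorem hc_ex (y : Cy D A) {r : Cm K Ω n Qg} {v : Cv q n Qg Lm} (b a' a : Fin (n + 1) → Pl K)
    (h : ∀ e, ∃ Ψ, Hc y r v (vt a a' e) b Ψ) : ∃ Φ, Phc y r v b a' a Φ := by
  choose Ψ hΨ using h
  refine ⟨MonoidHom.pi Ψ, ⟨ft_pi _ fun e => (hΨ e).1.1, fun w hw hz => ?_⟩, fun z e => ?_⟩
  · funext e
    refine (hΨ e).1.2 w hw fun hm => hz ?_
    unfold Tt
    rcases Finset.mem_union.1 hm with hm | hm
    · rcases Finset.mem_union.1 hm with hm | hm
      · exact Finset.mem_union_left _ hm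
      · obtain ⟨j, -, hj⟩ := Finset.mem_image.1 hm
        refine Finset.mem_union_right _ (Finset.mem_union_left _ ?_)
        unfold vt at hj
        by_cases hej : e j = true
        · rw [if_pos hej] at hj
          exact Finset.mem_union_right _ (Finset.mem_image.2 ⟨j, Finset.mem_univ _, hj⟩)
        · rw [if_neg hej] at hj
          exact Finset.mem_union_left _ (Finset.mem_image.2 ⟨j, Finset.mem_univ _, hj⟩)
    · exact Finset.mem_union_right _ (Finset.mem_union_right _ hm)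
  · have h1 : Ψ e = (Pi.evalMonoidHom (fun _ => UGd q n Qg Lm) e).comp (MonoidHom.pi Ψ) := rfl
    have h2 := DFunLike.congr_fun (hΨ e).2 z
    rw [h1, hat_comp] at h2
    exact h2

/-- the generators outside `T`, `a`, `b` -/
theorem relc_one (y : Cy D A) {r : Cm K Ω n Qg} (hr : Unz y.L r.T r.phi) (v : Cv q n Qg Lm)
    (a b : Fin (n + 1) → Pl K) {w : Pl K} (hw0 : w ∉ D.S0) (hw : w ∉ r.T) (ha : ∀ k, a k ≠ w)
    (hb : ∀ k, b k ≠ w) : relc y r v a b (FreeGroup.of (Sum.inl w)) = 1 := by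
  unfold relc
  rw [rel_of]
  have h2 : kdq A Fin.succ a b (Sum.inl w : Pl K ⊕ Fin A.g) = none := by
    have ha' : ¬ ∃ k, a k = w := fun ⟨k, hk⟩ => ha k hk
    have hb' : ¬ ∃ k, b k = w := fun ⟨k, hk⟩ => hb k hk
    change (if h : ∃ k, a k = w then some (Fin.succ h.choose, false) else
      if h : ∃ k, b k = w then some (Fin.succ h.choose, true) else none) = none
    rw [dif_neg ha', dif_neg hb']
  rw [h2]
  change qi (hat y.L A r.phi (FreeGroup.of (Sum.inl w))) = 1
  rw [hat_inl, hr.2 w hw0 hw]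
  rfl

private theorem ph_hc {y : Cy D A} {r : Cm K Ω n Qg} {v : Cv q n Qg Lm}
    (hr : Unz y.L r.T r.phi) {b a' a : Fin (n + 1) → Pl K}
    {Φ : Gal(Ω/K) →* ((Fin (n + 1) → Bool) → UGd q n Qg Lm)} (hΦ : Phc y r v b a' a Φ)
    (e : Fin (n + 1) → Bool) :
    Hc y r v (vt a a' e) b ((Pi.evalMonoidHom (fun _ => UGd q n Qg Lm) e).comp Φ) := by
  have hh : hat y.L A ((Pi.evalMonoidHom (fun _ => UGd q n Qg Lm) e).comp Φ) =
      relc y r v (vt a a' e) b := by
    refine MonoidHom.ext fun z => ?_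
    rw [hat_comp]
    exact hΦ.hat z e
  refine ⟨⟨(hΦ.unz.comp _).1, fun w hw hz => ?_⟩, hh⟩
  rw [← hat_inl y.L A, hh]
  refine relc_one y hr v _ _ hw (fun h => hz ?_) (fun k h => hz ?_) fun k h => hz ?_
  · exact Finset.mem_union_left _ (Finset.mem_union_left _ h)
  · exact Finset.mem_union_left _ (Finset.mem_union_right _
      (Finset.mem_image.2 ⟨k, Finset.mem_univ _, h⟩))
  · exact Finset.mem_union_right _ (Finset.mem_image.2 ⟨k, Finset.mem_univ _, h⟩)

private theorem uf_zero [Fintype Lm] (y : Cy D A) (r : Cm K Ω n Qg) (v : Cv q n Qg Lm)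
    (q1 : Fin (n + 2) → Pl K) (a' a : Fin (n + 1) → Pl K) (w : Pl K)
    (e : Fin (n + 1) → Bool)
    (h : ¬ (ND r.T (Fin.cons w (vt a a' e) : Fin (n + 2) → Pl K) q1 ∧
      ∃ Ψ, Hc y r v (vt a a' e) (Fin.tail q1) Ψ)) :
    ∏ e : Fin (n + 1) → Bool, cj e (Uc y r v q1 w (vt a a' e)) = 0 := by
  refine Finset.prod_eq_zero (Finset.mem_univ e) ?_
  unfold Uc
  rw [if_neg h, cjc_zero]

private theorem vt_nd {T : Finset (Pl K)} {q1 : Fin (n + 2) → Pl K} {a' a : Fin (n + 1) → Pl K}
    (hd : Dst T q1 a' a) {w : Pl K} (hw : w ∉ Tt T (Fin.tail q1) a' a) (hw0 : w ≠ q1 0)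
    (e : Fin (n + 1) → Bool) : ND T (Fin.cons w (vt a a' e) : Fin (n + 2) → Pl K) q1 := by
  obtain ⟨h1, h2, h3, h4, h5, h6⟩ := hd
  have ht : ∀ k, vt a a' e k = a k ∨ vt a a' e k = a' k := fun k => by
    unfold vt
    by_cases hk : e k = true
    · rw [if_pos hk]
      exact Or.inr rfl
    · rw [if_neg hk]
      exact Or.inl rfl
  have hwv : ∀ k, w ≠ vt a a' e k := by
    intro k h
    apply hw
    unfold Tt
    refine Finset.mem_union_right _ (Finset.mem_union_left _ ?_)
    rcases ht k with hk | hk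
    · exact Finset.mem_union_left _ (Finset.mem_image.2 ⟨k, Finset.mem_univ _, by rw [h, hk]⟩)
    · exact Finset.mem_union_right _ (Finset.mem_image.2 ⟨k, Finset.mem_univ _, by rw [h, hk]⟩)
  have hwq : ∀ k, w ≠ q1 k := by
    intro k h
    revert h
    refine Fin.cases (fun h => hw0 h) (fun j h => ?_) k
    apply hw
    unfold Tt
    exact Finset.mem_union_right _ (Finset.mem_union_right _
      (Finset.mem_image.2 ⟨j, Finset.mem_univ _, h.symm⟩))
  have hwT : w ∉ T := fun h => hw (Finset.mem_union_left _ h)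
  have hvi : Function.Injective (vt a a' e) := by
    intro j k hjk
    unfold vt at hjk
    by_cases hj : e j = true <;> by_cases hk : e k = true
    · rw [if_pos hj, if_pos hk] at hjk
      exact h3.1 hjk
    · rw [if_pos hj, if_neg hk] at hjk
      exact absurd hjk.symm (h4 k j)
    · rw [if_neg hj, if_pos hk] at hjk
      exact absurd hjk (h4 j k)
    · rw [if_neg hj, if_neg hk] at hjk
      exact h2.1 hjk
  refine ⟨⟨?_, ?_⟩, h1, ?_⟩
  · intro j k
    refine Fin.cases ?_ (fun j => ?_) j <;> refine Fin.cases ?_ (fun k => ?_) k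
    · exact fun _ => rfl
    · rw [Fin.cons_zero, Fin.cons_succ]
      exact fun h => absurd h (hwv k)
    · rw [Fin.cons_zero, Fin.cons_succ]
      exact fun h => absurd h.symm (hwv j)
    · rw [Fin.cons_succ, Fin.cons_succ]
      exact fun h => congrArg Fin.succ (hvi h)
  · intro k
    refine Fin.cases ?_ (fun k => ?_) k
    · rw [Fin.cons_zero]
      exact hwT
    · rw [Fin.cons_succ]
      rcases ht k with hk | hk
      · rw [hk]
        exact h2.2 k
      · rw [hk]
        exact h3.2 k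
  · intro j k
    refine Fin.cases ?_ (fun j => ?_) j
    · rw [Fin.cons_zero]
      exact hwq k
    · rw [Fin.cons_succ]
      rcases ht j with hk | hk
      · rw [hk]
        exact h5 j k
      · rw [hk]
        exact h6 j k

private theorem nd_out {T : Finset (Pl K)} {q1 : Fin (n + 2) → Pl K} {a' a : Fin (n + 1) → Pl K}
    {w : Pl K} (h : ∀ e : Fin (n + 1) → Bool, ND T (Fin.cons w (vt a a' e) : Fin (n + 2) → Pl K) q1) :
    w ∉ Tt T (Fin.tail q1) a' a ∧ w ≠ q1 0 := by
  have h0 : ∀ (e : Fin (n + 1) → Bool) k, w ≠ vt a a' e k := by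
    intro e k hk
    have h1 := (h e).1.1
    have h2 : (0 : Fin (n + 2)) = k.succ := by
      apply h1
      rw [Fin.cons_zero, Fin.cons_succ, hk]
    exact absurd h2.symm (Fin.succ_ne_zero k)
  have hq : ∀ k, w ≠ q1 k := fun k => by
    have h1 := (h fun _ => true).2.2 0 k
    rwa [Fin.cons_zero] at h1
  refine ⟨fun hm => ?_, hq 0⟩
  unfold Tt at hm
  rcases Finset.mem_union.1 hm with hm | hm
  · have h1 := (h fun _ => true).1.2 0
    rw [Fin.cons_zero] at h1
    exact h1 hm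
  · rcases Finset.mem_union.1 hm with hm | hm
    · rcases Finset.mem_union.1 hm with hm | hm
      · obtain ⟨j, -, hj⟩ := Finset.mem_image.1 hm
        exact h0 (fun _ => false) j (by rw [← hj]; simp [vt])
      · obtain ⟨j, -, hj⟩ := Finset.mem_image.1 hm
        exact h0 (fun _ => true) j (by rw [← hj]; simp [vt])
    · obtain ⟨j, -, hj⟩ := Finset.mem_image.1 hm
      exact hq j.succ (by rw [← hj]; rfl)

theorem hc_sum [Fintype Lm] {y : Cy D A} (hy : y.Ok q n Qg Lm)
    [Finite (UGd q n Qg Lm)] (hpg : IsPGroup p (UGd q n Qg Lm))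
    {r : Cm K Ω n Qg} {v : Cv q n Qg Lm} (hr : Unz y.L r.T r.phi) (hrZ : r.T ⊆ y.Z)
    (q1 : Fin (n + 2) → Pl K) (a' a : Fin (n + 1) → Pl K) (hd : Dst r.T q1 a' a)
    (hz : (∀ k, q1 k ∈ y.Z) ∧ ∀ j, a j ∈ y.Z ∧ a' j ∈ y.Z)
    {Φ : Gal(Ω/K) →* ((Fin (n + 1) → Bool) → UGd q n Qg Lm)} (hΦ : Phc y r v (Fin.tail q1) a' a Φ)
    (B : Finset (Pl K)) (hB : B ⊆ y.Z) :
    ∑ w ∈ B, ∏ e : Fin (n + 1) → Bool, cj e (Uc y r v q1 w (vt a a' e)) =
      ∑ w ∈ B.filter (fun w => w ∉ Tt r.T (Fin.tail q1) a' a ∧ w ≠ q1 0), gg v (Φ (y.Fr.F w)) := by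
  have hTZ : Tt r.T (Fin.tail q1) a' a ⊆ y.Z := by
    intro w hw
    unfold Tt at hw
    rcases Finset.mem_union.1 hw with hm | hm
    · exact hrZ hm
    · rcases Finset.mem_union.1 hm with hm | hm
      · rcases Finset.mem_union.1 hm with hm | hm
        · obtain ⟨j, -, rfl⟩ := Finset.mem_image.1 hm
          exact (hz.2 j).1
        · obtain ⟨j, -, rfl⟩ := Finset.mem_image.1 hm
          exact (hz.2 j).2
      · obtain ⟨j, -, rfl⟩ := Finset.mem_image.1 hm
        exact hz.1 _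
  rw [Finset.sum_filter]
  refine Finset.sum_congr rfl fun w hwB => ?_
  by_cases hw : w ∉ Tt r.T (Fin.tail q1) a' a ∧ w ≠ q1 0
  · rw [if_pos hw]
    unfold gg
    refine Finset.prod_congr rfl fun e _ => ?_
    congr 1
    unfold Uc
    rw [if_pos ⟨vt_nd hd hw.1 hw.2 e, _, ph_hc hr hΦ e⟩]
    have h2 := hy.wd (UGd q n Qg Lm) hpg hy.cd
      ((Pi.evalMonoidHom (fun _ => UGd q n Qg Lm) e).comp Φ)
      ⟨(hΦ.unz.comp _).1, fun u hu huz => (hΦ.unz.comp _).2 u hu fun h => huz (hTZ h)⟩ w (hB hwB)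
    rw [(ph_hc hr hΦ e).2] at h2
    exact congrArg (g1 v) h2
  · rw [if_neg hw]
    have h1 : ¬ ∀ e : Fin (n + 1) → Bool,
        ND r.T (Fin.cons w (vt a a' e) : Fin (n + 2) → Pl K) q1 := fun h => hw (nd_out h)
    push Not at h1
    obtain ⟨e, he⟩ := h1
    exact uf_zero y r v q1 a' a w e fun h => he h.1

theorem hc_zero [Fintype Lm] (y : Cy D A) (r : Cm K Ω n Qg) (v : Cv q n Qg Lm)
    (q1 : Fin (n + 2) → Pl K) (a' a : Fin (n + 1) → Pl K)
    (h : ¬ ∀ e, ∃ Ψ, Hc y r v (vt a a' e) (Fin.tail q1) Ψ) (w : Pl K) :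
    ∏ e : Fin (n + 1) → Bool, cj e (Uc y r v q1 w (vt a a' e)) = 0 := by
  obtain ⟨e, he⟩ := not_forall.1 h
  exact uf_zero y r v q1 a' a w e fun h => he h.2

theorem hc_nd [Fintype Lm] (y : Cy D A) (r : Cm K Ω n Qg) (v : Cv q n Qg Lm)
    (q1 : Fin (n + 2) → Pl K) (a' a : Fin (n + 1) → Pl K) (w : Pl K)
    (h : ∏ e : Fin (n + 1) → Bool, cj e (Uc y r v q1 w (vt a a' e)) ≠ 0) (ha : ∀ j, a j ≠ a' j) :
    Dst r.T q1 a' a := by
  have hn : ∀ e : Fin (n + 1) → Bool, ND r.T (Fin.cons w (vt a a' e) : Fin (n + 2) → Pl K) q1 := by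
    intro e
    by_contra hc
    exact h (uf_zero y r v q1 a' a w e fun h => hc h.1)
  have hi : ∀ e : Fin (n + 1) → Bool, Function.Injective (vt a a' e) := by
    intro e j k hjk
    have h1 := (hn e).1.1
    have h2 : (j.succ : Fin (n + 2)) = k.succ := by
      apply h1
      rw [Fin.cons_succ, Fin.cons_succ, hjk]
    exact Fin.succ_injective _ h2
  have hT : ∀ (e : Fin (n + 1) → Bool) k, vt a a' e k ∉ r.T := by
    intro e k
    have h1 := (hn e).1.2 k.succ
    rwa [Fin.cons_succ] at h1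
  have hq : ∀ (e : Fin (n + 1) → Bool) j k, vt a a' e j ≠ q1 k := by
    intro e j k
    have h1 := (hn e).2.2 j.succ k
    rwa [Fin.cons_succ] at h1
  have e0 : vt a a' (fun _ => false) = a := by
    funext k
    simp [vt]
  have e1 : vt a a' (fun _ => true) = a' := by
    funext k
    simp [vt]
  refine ⟨(hn fun _ => true).2.1, ⟨?_, ?_⟩, ⟨?_, ?_⟩, ?_, ?_, ?_⟩
  · rw [← e0]
    exact hi _
  · intro k
    have h1 := hT (fun _ => false) k
    rwa [e0] at h1
  · rw [← e1]
    exact hi _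
  · intro k
    have h1 := hT (fun _ => true) k
    rwa [e1] at h1
  · intro j k hjk
    by_cases hj : j = k
    · rw [hj] at hjk
      exact ha k hjk
    · have h1 := @hi (Function.update (fun _ => false) k true) j k
      apply hj
      apply h1
      have h2 : Function.update (fun _ : Fin (n + 1) => false) k true j = false := by
        rw [Function.update_of_ne hj]
      have h3 : Function.update (fun _ : Fin (n + 1) => false) k true k = true := by
        rw [Function.update_self]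
      unfold vt
      rw [h2, h3]
      simpa using hjk
  · intro j k
    have h1 := hq (fun _ => false) j k
    rwa [e0] at h1
  · intro j k
    have h1 := hq (fun _ => true) j k
    rwa [e1] at h1

end H62.BM
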