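import Pool.Agent.H62.BL.Mz
import Pool.Agent.H62.BM.Chh

/-!
# H62 BM CMZ: the function `gg` has mean zero on the cosets of the inertia at `a` (CORE of BLX)

As H62/BL/Mz.lean, coefficients modulo `q = p ^ κ`. `phc_q`: the `Q`-part of a homomorphism with the words `relc` is `phi`.
-/

set_option autoImplicit false

open scoped NumberField
open IsDedekindDomain
open scoped Classical

noncomputable section

namespace H62.BM

open H63.MA H38.BB H38.BG H57.PC H57.BRA H77.WD H77.WE H62.BL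

variable {K : Type} [Field K] [NumberField K] {Ω : Type} [Field Ω] [Algebra K Ω]
  {p : ℕ} {ζ : K} {D : RD0 K p ζ} {q n : ℕ} {Qg Lm : Type} [Group Qg] [MulAction Qg Lm]
  {A : GS D Ω}

theorem phc_q [IsAlgClosure K Ω] [Finite Qg] (hp : p.Prime) (hζ : IsPrimitiveRoot ζ p) {y : Cy D A}
    (hy : ∀ v ∈ y.Z, v ∉ D.S0) (hQ : IsPGroup p Qg) {r : Cm K Ω n Qg} {v : Cv q n Qg Lm}
    (hr : Unz y.L r.T r.phi) {a b : Fin (n + 1) → Pl K} (ha : ∀ k, a k ∉ r.T ∧ a k ∈ y.Z)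
    (hb : ∀ k, b k ∉ r.T ∧ b k ∈ y.Z) {Z' : Finset (Pl K)} {Ψ : Gal(Ω/K) →* UGd q n Qg Lm}
    (hΨ : Unz y.L Z' Ψ) (hh : hat y.L A Ψ = relc y r v a b) (σ : Gal(Ω/K)) :
    (Ψ σ).q = r.phi σ := by
  obtain ⟨f, hf⟩ : ∃ f : UGd q n Qg Lm →* Qg, ∀ x, f x = x.q :=
    ⟨⟨⟨fun x => x.q, rfl⟩, fun _ _ => rfl⟩, fun _ => rfl⟩
  have h1 : hat y.L A (f.comp Ψ) = hat y.L A r.phi := by
    rw [hat_comp, hh]
    refine MonoidHom.ext fun z => ?_
    rw [MonoidHom.comp_apply, hf]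
    exact relc_q hy hr v ha hb z
  have h2 : f.comp Ψ = r.phi := by
    refine hon_eqU hp hζ y.L A (r.T ∪ Z') _ _ ⟨(hΨ.comp f).1, fun w hw hz => (hΨ.comp f).2 w hw
      fun h => hz (Finset.mem_union_right _ h)⟩ ⟨hr.1, fun w hw hz => hr.2 w hw
      fun h => hz (Finset.mem_union_left _ h)⟩ (hQ.to_subgroup _) (hQ.to_subgroup _) (fun w _ => ?_)
      fun i => ?_
    · rw [← hat_inl y.L A, ← hat_inl y.L A, h1]
    · rw [← hat_inr y.L A, ← hat_inr y.L A, h1]
  rw [← h2, MonoidHom.comp_apply, hf]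

theorem g1_mul [Fintype Lm] (hq : Pw p q) (v : Cv q n Qg Lm)
    (t x : UGd q n Qg Lm) (s : ZMod q) (l : List (Lr (Fin (n + 2)) Lm)) (hl : l.length = n + 1)
    (ht : t.q = 1) (htc : t.c = e1 + s • br l) :
    g1 v (t * x) = ep q (-(s * v.kp (br l))) * g1 v x := by
  have : NeZero q := hq.neZero
  have h0 : ∀ w : List (Lr (Fin (n + 2)) Lm), w ≠ [] → t.c w = s * br l w := by
    intro w hw
    rw [htc, Pi.add_apply, Pi.smul_apply, smul_eq_mul, e1, if_neg hw, zero_add]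
  have ha2 : ∀ w : List (Lr (Fin (n + 2)) Lm), w ≠ [] → w.length ≤ n → t.c w = 0 := by
    intro w hw hlen
    rw [h0 w hw, br_len l w (by omega), mul_zero]
  have hm : ∀ w : List (Lr (Fin (n + 2)) Lm), w ≠ [] → (t * x).c w = t.c w + x.c w :=
    fun w hw => top_mul t x ht ha2 w hw
  have hqq : (t * x).q = x.q := by rw [ug_mul_q, ht, one_mul]
  have hc : Lc0 v (t * x) ↔ Lc0 v x := by
    unfold Lc0
    rw [hqq]
    refine and_congr_right fun _ => ?_
    constructor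
    · intro h u hu hlu
      have h1 := h u hu hlu
      rwa [hm u hu, ha2 u hu hlu, zero_add] at h1
    · intro h u hu hlu
      rw [hm u hu, ha2 u hu hlu, zero_add]
      exact h u hu hlu
  have hk : v.kp (t * x).c = s * v.kp (br l) + v.kp x.c := by
    unfold Cv.kp
    rw [Finset.mul_sum, ← Finset.sum_add_distrib]
    refine Finset.sum_congr rfl fun f _ => ?_
    have h1 : List.ofFn f ≠ [] := by
      intro h2
      have h3 := congrArg List.length h2
      rw [List.length_ofFn] at h3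
      exact Nat.succ_ne_zero n h3
    rw [hm _ h1, h0 _ h1]
    ring
  unfold g1
  by_cases h : Lc0 v x
  · rw [if_pos (hc.2 h), if_pos h, hk, neg_add, epc_add]
  · rw [if_neg fun h2 => h (hc.1 h2), if_neg h, mul_zero]

private theorem mz_cj {m : ℕ} (e : Fin m → Bool) (z w : ℂ) : cj e (z * w) = cj e z * cj e w := by
  unfold cj
  split_ifs
  · rfl
  · exact map_mul _ z w

private theorem mz_cj1 {m : ℕ} (e : Fin m → Bool) (z : ℂ) (h : cj e z = 1) : z = 1 := by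
  unfold cj at h
  split_ifs at h
  · exact h
  · have h1 := congrArg (starRingEnd ℂ) h
    rwa [Complex.conj_conj, map_one] at h1

theorem mzc [IsAlgClosure K Ω] [Finite Qg] [Fintype Lm] (hq : Pw p q) (hζ : IsPrimitiveRoot ζ p)
    {y : Cy D A} (hy : ∀ v ∈ y.Z, v ∉ D.S0) (hQ : IsPGroup p Qg) {r : Cm K Ω n Qg}
    {v : Cv q n Qg Lm} (hr : r.Ok y v)
    (q1 : Fin (n + 2) → Pl K) (a' a : Fin (n + 1) → Pl K) (hd : Dst r.T q1 a' a)
    (hz : (∀ k, q1 k ∈ y.Z) ∧ ∀ j, a j ∈ y.Z ∧ a' j ∈ y.Z)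
    {Φ : Gal(Ω/K) →* ((Fin (n + 1) → Bool) → UGd q n Qg Lm)} (hΦ : Phc y r v (Fin.tail q1) a' a Φ) :
    ∃ (τ : Gal(Ω/K)) (ε : ℂ), ε ≠ 1 ∧ ∀ x, gg v (Φ τ * x) = ε * gg v x := by
  have hp : p.Prime := hq.prime
  have hne0 : NeZero q := hq.neZero
  obtain ⟨ρ, u, hur, hu⟩ := hr.lnk
  choose σ hσ using hur
  obtain ⟨g, hg⟩ : ∃ g : Fin (n + 1) → Gal(Ω/K), g = fun i => σ i * y.L.t (a (ρ i)) * (σ i)⁻¹ :=
    ⟨_, rfl⟩
  obtain ⟨hdq, hda, hda', haa', haq, ha'q⟩ := hd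
  -- the homs of the vertices
  have hhat : ∀ e z, hat y.L A ((Pi.evalMonoidHom (fun _ => UGd q n Qg Lm) e).comp Φ) z =
      relc y r v (vt a a' e) (Fin.tail q1) z := by
    intro e z
    rw [hat_comp]
    exact hΦ.hat z e
  have ht : ∀ w e, Φ (y.L.t w) e =
      relc y r v (vt a a' e) (Fin.tail q1) (FreeGroup.of (Sum.inl w)) := by
    intro w e
    rw [← hhat e, hat_inl]
    rfl
  have hrn : ∀ e, Φ (rn (List.ofFn g)) e = rn (List.ofFn fun i => Φ (g i) e) := by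
    intro e
    have h1 := rn_map ((Pi.evalMonoidHom (fun _ => UGd q n Qg Lm) e).comp Φ) (List.ofFn g)
    rw [List.map_ofFn] at h1
    exact h1
  have hgi : ∀ i e, Φ (g i) e = Φ (σ i) e * Φ (y.L.t (a (ρ i))) e * (Φ (σ i) e)⁻¹ := by
    intro i e
    rw [hg]
    change Φ (σ i * y.L.t (a (ρ i)) * (σ i)⁻¹) e = _
    rw [map_mul, map_mul, map_inv]
    rfl
  -- a vertex with a coordinate `true`
  have hone : ∀ e : Fin (n + 1) → Bool, (∃ j, e j = true) → Φ (rn (List.ofFn g)) e = 1 := by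
    rintro e ⟨j, hj⟩
    rw [hrn]
    apply rn_one
    rw [List.mem_ofFn]
    refine ⟨ρ.symm j, ?_⟩
    have h2 : Φ (y.L.t (a j)) e = 1 := by
      rw [ht]
      refine relc_one y hr.unz v _ _ (hy _ (hz.2 j).1) (hda.2 j) (fun k hk => ?_) fun k hk =>
        haq j k.succ hk.symm
      unfold vt at hk
      split_ifs at hk with h2
      · exact haa' j k hk.symm
      · have h3 : k = j := hda.1 hk
        rw [h3] at h2
        exact h2 hj
    change Φ (g (ρ.symm j)) e = 1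
    rw [hgi, Equiv.apply_symm_apply, h2, mul_one, mul_inv_cancel]
  -- the vertex `0`
  obtain ⟨e0, he0⟩ : ∃ e0 : Fin (n + 1) → Bool, e0 = fun _ => false := ⟨_, rfl⟩
  have hvt : vt a a' e0 = a := by
    rw [he0]
    exact vt_false a a'
  have hlt : ∀ j, Φ (y.L.t (a j)) e0 = lt ⟨j.succ, v.lam j.succ⟩ (-1) := by
    intro j
    have h1 : kdq A Fin.succ (vt a a' e0) (Fin.tail q1) (Sum.inl (a j)) = some (j.succ, false) := by
      rw [hvt]
      unfold kdq
      dsimp only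
      have h2 : ∃ k, a k = a j := ⟨j, rfl⟩
      rw [dif_pos h2]
      have h3 : h2.choose = j := hda.1 h2.choose_spec
      rw [h3]
    rw [ht, relc, rel_of, h1]
    rfl
  have hqp : ∀ i, (Φ (σ i) e0).q = u i := by
    intro i
    rw [← hσ i]
    refine phc_q (v := v) (a := vt a a' e0) (b := Fin.tail q1) hp hζ hy hQ hr.unz ?_ ?_
      (hΦ.unz.comp (Pi.evalMonoidHom (fun _ => UGd q n Qg Lm) e0)) (MonoidHom.ext (hhat e0)) (σ i)
    · rw [hvt]
      exact fun k => ⟨hda.2 k, (hz.2 k).1⟩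
    · exact fun k => ⟨hdq.2 k.succ, hz.1 k.succ⟩
  have hcl : ∀ i, (Φ (g i) e0).q = 1 ∧
      (∀ w : List (Lr (Fin (n + 2)) Lm), w ≠ [] → (∀ b ∈ w, b.i ≠ (ρ i).succ) → (Φ (g i) e0).c w = 0) ∧
      ∀ b : Lr (Fin (n + 2)) Lm, (Φ (g i) e0).c [b] =
        if b = ⟨(ρ i).succ, u i • v.lam (ρ i).succ⟩ then -1 else 0 := by
    intro i
    have h1 := conj_lt (Φ (σ i) e0) (ρ i).succ (Fin.succ_ne_zero _) (v.lam (ρ i).succ) (-1)
    rw [← hlt, ← hgi, hqp] at h1
    exact h1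
  have hct := comm_topP ρ (fun i => u i • v.lam (ρ i).succ) (fun _ => -1) (fun i => Φ (g i) e0)
    (fun i => (hcl i).1) (fun i => (hcl i).2.1) (fun i => (hcl i).2.2)
  rw [← hrn] at hct
  obtain ⟨s, hs⟩ : ∃ s : ZMod q, s = ∏ _i : Fin (n + 1), (-1 : ZMod q) := ⟨_, rfl⟩
  have hs0 : IsUnit s := by
    rw [hs]
    exact IsUnit.prod_univ_iff.2 fun _ => isUnit_one.neg
  obtain ⟨ε', hε'⟩ : ∃ ε' : ℂ, ε' = ep q (-(s * v.kp (br (List.ofFn fun i : Fin (n + 1) =>
    (⟨(ρ i).succ, u i • v.lam (ρ i).succ⟩ : Lr (Fin (n + 2)) Lm))))) := ⟨_, rfl⟩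
  refine ⟨rn (List.ofFn g), cj e0 ε', ?_, ?_⟩
  · intro h
    have h1 := mz_cj1 e0 ε' h
    rw [hε', epc_eq_one, neg_eq_zero] at h1
    exact hu ((hs0.mul_right_eq_zero).1 h1)
  · intro x
    unfold gg
    have h1 : ∀ e, cj e (g1 v ((Φ (rn (List.ofFn g)) * x) e)) =
        (if e = e0 then cj e0 ε' else 1) * cj e (g1 v (x e)) := by
      intro e
      rw [Pi.mul_apply]
      by_cases he : e = e0
      · rw [if_pos he, he, ← mz_cj, hε']
        congr 1
        refine g1_mul hq v _ _ s _ (by rw [List.length_ofFn]) hct.1 ?_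
        rw [hct.2, hs]
      · have h2 : ∃ j, e j = true := by
          by_contra h3
          push Not at h3
          apply he
          rw [he0]
          funext j
          exact Bool.eq_false_iff.2 (h3 j)
        rw [if_neg he, hone e h2, one_mul, one_mul]
    rw [Finset.prod_congr rfl fun e _ => h1 e, Finset.prod_mul_distrib, Finset.prod_ite_eq',
      if_pos (Finset.mem_univ _)]

end H62.BM
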