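import Pool.Agent.H62.BL.Sma
import Pool.Agent.H62.BM.Cmz
import Pool.Agent.H62.BM.Cgb

/-!
# H62 BM CSA: the inner sum for one tuple: from values at the chosen Frobenius elements to class functions (CORE of BLX)

As H62/BL/Sma.lean (`GLp`, `BX`, `Gx` are defined there).
-/

set_option autoImplicit false

open scoped NumberField
open IsDedekindDomain
open scoped Classical

noncomputable section

namespace H62.BM

open H63.MA H38.BB H38.BG H57.PC H57.BRA H77.WD H77.WE H77.GL H57.AN H35.UB H62.BL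

variable {K : Type} [Field K] [NumberField K] {Ω : Type} [Field Ω] [Algebra K Ω]
  {p : ℕ} {ζ : K} {D : RD0 K p ζ} {q n : ℕ} {Qg Lm : Type} [Group Qg] [MulAction Qg Lm]
  {A : GS D Ω}

private theorem sma_pg {G : Type} [Group G] [Finite G] {p : ℕ} [Fact p.Prime] (h : IsPGroup p G)
    (I : Type) : IsPGroup p (I → G) := by
  obtain ⟨k, hk⟩ := IsPGroup.iff_card.1 h
  intro g
  refine ⟨k, ?_⟩
  funext i
  rw [Pi.pow_apply, Pi.one_apply, ← hk]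
  exact pow_card_eq_one'

private theorem sma_box {Z T m : Finset (Pl K)} {lo hi : ℝ}
    (hZ : ∀ w, D.Gd w → (nm w : ℝ) ≤ hi → w ∈ Z) (hT : T ⊆ m) :
    (BX D Z T lo hi).filter (fun w => w ∉ m) =
      (PI K lo hi true).filter (fun w => w ∉ D.S0 ∧ w ∉ m) := by
  ext w
  unfold BX PI RD0.Gd
  simp only [Finset.mem_filter, mem_PB]
  constructor
  · rintro ⟨⟨h1, ⟨h2, h3⟩, h4, h5, h6⟩, h7⟩
    exact ⟨⟨h6, h5, fun _ => h3⟩, h2, h7⟩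
  · rintro ⟨⟨h1, h2, h3⟩, h4, h5⟩
    exact ⟨⟨hZ w ⟨h4, h3 trivial⟩ h1, ⟨h4, h3 trivial⟩, fun h => h5 (hT h), h2, h1⟩, h5⟩

private theorem sma_int {m : Finset (Pl K)} {lo hi : ℝ} :
    (PI K lo hi true).filter (fun w => w ∉ D.S0 ∧ w ∉ m) =
      (PB K hi).filter (fun w => D.Gd w ∧ w ∉ m) \ (PB K lo).filter (fun w => D.Gd w ∧ w ∉ m) := by
  ext w
  unfold PI RD0.Gd
  simp only [Finset.mem_filter, Finset.mem_sdiff, mem_PB]
  constructor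
  · rintro ⟨⟨h1, h2, h3⟩, h4, h5⟩
    exact ⟨⟨h1, ⟨h4, h3 trivial⟩, h5⟩, fun h => absurd h.1 (not_le.2 h2)⟩
  · rintro ⟨⟨h1, ⟨h2, h3⟩, h4⟩, h5⟩
    refine ⟨⟨h1, ?_, fun _ => h3⟩, h2, h4⟩
    by_contra h
    exact h5 ⟨not_lt.1 h, ⟨h2, h3⟩, h4⟩

private theorem sma_er (S : Finset (Pl K)) (P : Pl K → Prop) [DecidablePred P] (q : Pl K) (f : Pl K → ℂ)
    (hf : ∀ w, ‖f w‖ ≤ 1) :
    ‖∑ w ∈ S.filter (fun w => P w ∧ w ≠ q), f w‖ ≤ ‖∑ w ∈ S.filter P, f w‖ + 1 := by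
  have h1 : S.filter (fun w => P w ∧ w ≠ q) = (S.filter P).erase q := by
    ext w
    simp only [Finset.mem_filter, Finset.mem_erase]
    tauto
  rw [h1]
  by_cases hq : q ∈ S.filter P
  · rw [Finset.sum_erase_eq_sub hq]
    exact (norm_sub_le _ _).trans (add_le_add le_rfl (hf q))
  · rw [Finset.erase_eq_of_notMem hq]
    linarith

theorem smca [Finite Qg] [Fintype Lm] [Finite (UGd q n Qg Lm)] (hq : Pw p q)
    {y : Cy D A} (hy : y.Ok q n Qg Lm) (hQ : IsPGroup p Qg)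
    {r : Cm K Ω n Qg} {v : Cv q n Qg Lm} (hr : Unz y.L r.T r.phi) (hrZ : r.T ⊆ y.Z) {M C C' : ℕ}
    {Y : ℝ} (hY : 1 ≤ Y)
    (hgl : GLp p y.Fr M C C' Y) (hM : Nat.card ((Fin (n + 1) → Bool) → UGd q n Qg Lm) ≤ M)
    {lo hi : ℝ} (hlo : 0 ≤ lo) (hlh : lo ≤ hi) (hhi : hi ≤ Y ^ C)
    (hZ : ∀ w, D.Gd w → (nm w : ℝ) ≤ hi → w ∈ y.Z)
    (q1 : Fin (n + 2) → Pl K) (a' a : Fin (n + 1) → Pl K)
    (hz : (∀ k, q1 k ∈ y.Z) ∧ ∀ j, a j ∈ y.Z ∧ a' j ∈ y.Z) (ha : ∀ j, a j ≠ a' j)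
    (hnr : nr (Tt r.T (Fin.tail q1) a' a) ≤ Y ^ C) :
    ∑ w ∈ BX D y.Z r.T lo hi, ∏ e : Fin (n + 1) → Bool, cj e (Uc y r v q1 w (vt a a' e)) = 0 ∨
      (Dst r.T q1 a' a ∧ (∃ Φ, Phc y r v (Fin.tail q1) a' a Φ) ∧
        ∀ Φ, Phc y r v (Fin.tail q1) a' a Φ →
          ‖∑ w ∈ BX D y.Z r.T lo hi, ∏ e : Fin (n + 1) → Bool, cj e (Uc y r v q1 w (vt a a' e))‖ ≤
            1 + (C' * hi ^ (3 / 4 : ℝ) + Real.log Y ^ C') +
              (Gx y.Fr (Tt r.T (Fin.tail q1) a' a) hi Φ (gg v) +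
                Gx y.Fr (Tt r.T (Fin.tail q1) a' a) lo Φ (gg v))) := by
  by_cases h0 : ∑ w ∈ BX D y.Z r.T lo hi,
      ∏ e : Fin (n + 1) → Bool, cj e (Uc y r v q1 w (vt a a' e)) = 0
  · exact Or.inl h0
  right
  have hp : Fact p.Prime := ⟨hq.prime⟩
  obtain ⟨w, -, hw⟩ := Finset.exists_ne_zero_of_sum_ne_zero h0
  have hd : Dst r.T q1 a' a := hc_nd y r v q1 a' a w hw ha
  have hall : ∀ e, ∃ Ψ, Hc y r v (vt a a' e) (Fin.tail q1) Ψ := by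
    by_contra h
    exact hw (hc_zero y r v q1 a' a h w)
  refine ⟨hd, hc_ex y (Fin.tail q1) a' a hall, fun Φ hΦ => ?_⟩
  obtain ⟨m, hm⟩ : ∃ m, m = Tt r.T (Fin.tail q1) a' a := ⟨_, rfl⟩
  have hTm : r.T ⊆ m := by
    rw [hm]
    exact Finset.subset_union_left
  have hpg : IsPGroup p ((Fin (n + 1) → Bool) → UGd q n Qg Lm) := sma_pg (pg_ug hq hQ) _
  have hun : Unz y.L m Φ := by
    have h1 := hΦ.unz
    rwa [← hm] at h1
  have h1 := hc_sum hy (pg_ug hq hQ) hr hrZ q1 a' a hd hz hΦ (BX D y.Z r.T lo hi)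
    (Finset.filter_subset _ _)
  have h2 := sma_er (BX D y.Z r.T lo hi) (fun w => w ∉ m) (q1 0)
    (fun w => gg v (Φ (y.Fr.F w))) (fun w => gg_le v _)
  have h3 := hgl _ hpg hM Φ m hun (by rw [hm]; exact hnr) (gg v) (gg_le v) lo hi true
    (hlo.trans hlh) hhi
  rw [h1, ← hm]
  rw [sma_box hZ hTm] at h2
  have h4 : ∑ w ∈ (PI K lo hi true).filter (fun w => w ∉ D.S0 ∧ w ∉ m), gg v (Φ (y.Fr.F w)) =
      ∑ w ∈ (PI K lo hi true).filter (fun w => w ∉ D.S0 ∧ w ∉ m),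
        (gg v (Φ (y.Fr.F w)) - av Φ (gg v) (Φ (y.Fr.F w))) +
      (∑ w ∈ (PB K hi).filter (fun w => D.Gd w ∧ w ∉ m), av Φ (gg v) (Φ (y.Fr.F w)) -
        ∑ w ∈ (PB K lo).filter (fun w => D.Gd w ∧ w ∉ m), av Φ (gg v) (Φ (y.Fr.F w))) := by
    rw [Finset.sum_sub_distrib]
    have h5 : ∑ w ∈ (PI K lo hi true).filter (fun w => w ∉ D.S0 ∧ w ∉ m),
        av Φ (gg v) (Φ (y.Fr.F w)) =
        ∑ w ∈ (PB K hi).filter (fun w => D.Gd w ∧ w ∉ m), av Φ (gg v) (Φ (y.Fr.F w)) -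
        ∑ w ∈ (PB K lo).filter (fun w => D.Gd w ∧ w ∉ m), av Φ (gg v) (Φ (y.Fr.F w)) := by
      rw [sma_int]
      refine Finset.sum_sdiff_eq_sub ?_
      intro w hw
      rw [Finset.mem_filter, mem_PB] at hw ⊢
      exact ⟨hw.1.trans hlh, hw.2⟩
    rw [h5]
    ring
  have h6 : ‖∑ w ∈ (PI K lo hi true).filter (fun w => w ∉ D.S0 ∧ w ∉ m),
      gg v (Φ (y.Fr.F w))‖ ≤ (C' * hi ^ (3 / 4 : ℝ) + Real.log Y ^ C') +
        (Gx y.Fr m hi Φ (gg v) + Gx y.Fr m lo Φ (gg v)) := by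
    rw [h4]
    refine (norm_add_le _ _).trans (add_le_add h3 ?_)
    exact norm_sub_le _ _
  linarith

end H62.BM
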