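import Pool.Agent.H62.BL.Smc
import Pool.Agent.H62.BM.Csa

/-!
# H62 BM CSC: `GPC` for the family of the tuples (CORE of BLX)

As H62/BL/Smc.lean (`T3` is defined there). `Rfc`: the conditions on the family of the fixed primes.
-/

set_option autoImplicit false

open scoped NumberField
open IsDedekindDomain
open scoped Classical

noncomputable section

namespace H62.BM

open H63.MA H38.BB H38.BG H57.PC H57.BRA H77.WD H77.WE H77.GL H57.AN H35.UB H62.BL

variable {K : Type} [Field K] [NumberField K] {Ω : Type} [Field Ω] [Algebra K Ω]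
  {p : ℕ} {ζ : K} {D : RD0 K p ζ}

/-- the conditions on the family of the fixed primes -/
structure Rfc (C₁ : ℕ) (Y : ℝ) {ι : Type} (I : Finset ι) (T : ι → Finset (Pl K)) : Prop where
  nr : ∀ i ∈ I, nr (T i) ≤ Y ^ C₁
  card : ∀ i ∈ I, ((T i).card : ℝ) ≤ C₁ * Real.log (Real.log Y)
  mul : ∀ s, ((I.filter fun i => T i = s).card : ℝ) ≤ Real.log Y ^ C₁

private theorem smc_nm (v : Pl K) : (1 : ℝ) ≤ nm v := by
  exact_mod_cast (one_lt_nm v).le

private theorem smc_nr1 (S : Finset (Pl K)) : 1 ≤ nr S := by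
  unfold nr
  exact_mod_cast Finset.one_le_prod' (s := S) (f := fun v => nm v) fun v _ => (one_lt_nm v).le

private theorem smc_union (S R : Finset (Pl K)) : nr (S ∪ R) ≤ nr S * nr R := by
  have h1 : nr (S ∪ R) * nr (S ∩ R) = nr S * nr R := Finset.prod_union_inter
  have h2 := smc_nr1 (S ∩ R)
  have h3 := smc_nr1 (S ∪ R)
  rw [← h1]
  nlinarith

private theorem smc_pow {S : Finset (Pl K)} {W : ℝ} {N : ℕ} (hW : 1 ≤ W)
    (h : ∀ v ∈ S, (nm v : ℝ) ≤ W) (hN : S.card ≤ N) : nr S ≤ W ^ N := by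
  have h1 : nr S ≤ W ^ S.card := by
    unfold nr
    rw [← Finset.prod_const]
    exact Finset.prod_le_prod (fun v _ => Nat.cast_nonneg _) h
  exact h1.trans (pow_le_pow_right₀ hW hN)

private theorem smc_im {n : ℕ} (f : Fin (n + 1) → Pl K) : (Finset.univ.image f).card ≤ n + 1 := by
  refine Finset.card_image_le.trans (le_of_eq ?_)
  rw [Finset.card_univ, Fintype.card_fin]

private theorem smc_card3 {n : ℕ} (b a' a : Fin (n + 1) → Pl K) :
    (Finset.univ.image a ∪ Finset.univ.image a' ∪ Finset.univ.image b).card ≤ 3 * (n + 1) := by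
  have h1 := Finset.card_union_le (Finset.univ.image a ∪ Finset.univ.image a')
    (Finset.univ.image b)
  have h2 := Finset.card_union_le (Finset.univ.image a) (Finset.univ.image a')
  have h3 := smc_im a
  have h4 := smc_im a'
  have h5 := smc_im b
  omega

private theorem smc_nr {n : ℕ} {T : Finset (Pl K)} {b a' a : Fin (n + 1) → Pl K} {W V : ℝ}
    (hW : 1 ≤ W) (hT : nr T ≤ V)
    (h : ∀ j, (nm (b j) : ℝ) ≤ W ∧ (nm (a' j) : ℝ) ≤ W ∧ (nm (a j) : ℝ) ≤ W) :
    nr (Tt T b a' a) ≤ V * W ^ (3 * (n + 1)) := by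
  unfold Tt
  refine (smc_union _ _).trans ?_
  refine mul_le_mul hT ?_ (zero_le_one.trans (smc_nr1 _)) ((zero_le_one.trans (smc_nr1 T)).trans hT)
  refine smc_pow hW (fun v hv => ?_) (smc_card3 b a' a)
  rcases Finset.mem_union.1 hv with hv | hv
  · rcases Finset.mem_union.1 hv with hv | hv
    · obtain ⟨j, -, rfl⟩ := Finset.mem_image.1 hv
      exact (h j).2.2
    · obtain ⟨j, -, rfl⟩ := Finset.mem_image.1 hv
      exact (h j).2.1
  · obtain ⟨j, -, rfl⟩ := Finset.mem_image.1 hv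
    exact (h j).1

private theorem smc_card {n : ℕ} (T : Finset (Pl K)) (b a' a : Fin (n + 1) → Pl K) :
    (Tt T b a' a).card ≤ T.card + 3 * (n + 1) := by
  unfold Tt
  exact (Finset.card_union_le _ _).trans (Nat.add_le_add_left (smc_card3 b a' a) _)

/-- the number of the tuples with given ramified primes -/
private theorem smc_mult {n : ℕ} {ι : Type} (I : Finset ι) (T : ι → Finset (Pl K)) {V : ℝ}
    (hV : ∀ s, ((I.filter fun i => T i = s).card : ℝ) ≤ V) (J : Finset (ι × T3 K n))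
    (hJ : ∀ t ∈ J, t.1 ∈ I) (s : Finset (Pl K)) :
    ((J.filter fun t => Tt (T t.1) t.2.1 t.2.2.1 t.2.2.2 = s).card : ℝ) ≤
      (2 ^ s.card * V) * ((s.card : ℝ) ^ (n + 1)) ^ 3 := by
  have h1 : (J.filter fun t => Tt (T t.1) t.2.1 t.2.2.1 t.2.2.2 = s) ⊆
      (I.filter fun i => T i ⊆ s) ×ˢ ((Fintype.piFinset fun _ : Fin (n + 1) => s) ×ˢ
        ((Fintype.piFinset fun _ : Fin (n + 1) => s) ×ˢ
          (Fintype.piFinset fun _ : Fin (n + 1) => s))) := by
    rintro ⟨i, b, a', a⟩ ht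
    rw [Finset.mem_filter] at ht
    obtain ⟨ht, hs⟩ := ht
    dsimp only at hs
    rw [Finset.mem_product, Finset.mem_product, Finset.mem_product, Finset.mem_filter,
      Fintype.mem_piFinset, Fintype.mem_piFinset, Fintype.mem_piFinset]
    dsimp only
    rw [← hs]
    unfold Tt
    refine ⟨⟨hJ _ ht, Finset.subset_union_left⟩, fun j => ?_, fun j => ?_, fun j => ?_⟩
    · exact Finset.mem_union_right _ (Finset.mem_union_right _
        (Finset.mem_image_of_mem b (Finset.mem_univ j)))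
    · exact Finset.mem_union_right _ (Finset.mem_union_left _ (Finset.mem_union_right _
        (Finset.mem_image_of_mem a' (Finset.mem_univ j))))
    · exact Finset.mem_union_right _ (Finset.mem_union_left _ (Finset.mem_union_left _
        (Finset.mem_image_of_mem a (Finset.mem_univ j))))
  have h2 := Finset.card_le_card h1
  rw [Finset.card_product, Finset.card_product, Finset.card_product,
    Fintype.card_piFinset_const] at h2
  have h3 : ((I.filter fun i => T i ⊆ s).card : ℝ) ≤ 2 ^ s.card * V := by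
    have h4 : (I.filter fun i => T i ⊆ s).card =
        ∑ u ∈ s.powerset, ((I.filter fun i => T i ⊆ s).filter fun i => T i = u).card :=
      Finset.card_eq_sum_card_fiberwise fun i hi => by
        rw [Finset.mem_coe, Finset.mem_filter] at hi
        exact Finset.mem_coe.2 (Finset.mem_powerset.2 hi.2)
    rw [h4]
    push_cast
    calc ∑ u ∈ s.powerset, (((I.filter fun i => T i ⊆ s).filter fun i => T i = u).card : ℝ)
        ≤ ∑ u ∈ s.powerset, V := by
          refine Finset.sum_le_sum fun u _ => le_trans ?_ (hV u)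
          exact_mod_cast Finset.card_le_card (Finset.filter_subset_filter _
            (Finset.filter_subset _ _))
      _ = 2 ^ s.card * V := by
          rw [Finset.sum_const, Finset.card_powerset, nsmul_eq_mul]
          push_cast
          ring
  have h5 : ((J.filter fun t => Tt (T t.1) t.2.1 t.2.2.1 t.2.2.2 = s).card : ℝ) ≤
      ((I.filter fun i => T i ⊆ s).card : ℝ) * ((s.card : ℝ) ^ (n + 1) *
        ((s.card : ℝ) ^ (n + 1) * (s.card : ℝ) ^ (n + 1))) := by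
    have h6 : ((J.filter fun t => Tt (T t.1) t.2.1 t.2.2.1 t.2.2.2 = s).card : ℝ) ≤
      (((I.filter fun i => T i ⊆ s).card * (s.card ^ (n + 1) *
        (s.card ^ (n + 1) * s.card ^ (n + 1))) : ℕ) : ℝ) := by
      exact_mod_cast h2
    push_cast at h6
    exact h6
  refine h5.trans ?_
  have h7 : (s.card : ℝ) ^ (n + 1) * ((s.card : ℝ) ^ (n + 1) * (s.card : ℝ) ^ (n + 1)) =
      ((s.card : ℝ) ^ (n + 1)) ^ 3 := by ring
  rw [h7]
  exact mul_le_mul_of_nonneg_right h3 (by positivity)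

private theorem smc_two {k C : ℕ} {Y : ℝ} (hY : 1 ≤ Real.log Y)
    (h : (k : ℝ) ≤ C * Real.log (Real.log Y)) : (2 : ℝ) ^ k ≤ Real.log Y ^ C := by
  have h1 : (2 : ℝ) ≤ Real.exp 1 := by
    have := Real.add_one_le_exp (1 : ℝ)
    linarith
  calc (2 : ℝ) ^ k ≤ Real.exp 1 ^ k := pow_le_pow_left₀ (by norm_num) h1 k
    _ = Real.exp (k : ℝ) := by rw [← Real.exp_nat_mul, mul_one]
    _ ≤ Real.exp (C * Real.log (Real.log Y)) := Real.exp_le_exp.2 h
    _ = Real.log Y ^ C := by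
        rw [Real.exp_nat_mul, Real.exp_log (by linarith)]

theorem smcc {q b : ℕ} (hG : GPC D Ω q b) (m C₁ A₁ : ℕ) (ε : ℝ) (hε : 0 < ε) :
    ∃ Y₀ : ℝ, ∀ Y : ℝ, Y₀ ≤ Y → ∀ (L : LDs D Ω) (Fr : FR L) (n : ℕ) (Qg Lm : Type) [Group Qg]
      [MulAction Qg Lm] [Fintype Lm] [Finite Qg] [Finite (UGd q n Qg Lm)] (v : Cv q n Qg Lm),
      n ≤ m → v.Inv → IsPGroup p Qg →
      Nat.card ((Fin (n + 1) → Bool) → UGd q n Qg Lm) ≤ b →
      ∀ (ι : Type) (I : Finset ι) (T : ι → Finset (Pl K)) (x : ι → ℝ), Rfc C₁ Y I T →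
      (∀ i ∈ I, Real.exp (Real.log Y ^ ε) ≤ x i ∧ x i ≤ Y ^ C₁) →
      ∀ (J : Finset (ι × T3 K n)) (Φ : ι × T3 K n → Gal(Ω/K) →* ((Fin (n + 1) → Bool) → UGd q n Qg Lm)),
      (∀ t ∈ J, t.1 ∈ I ∧ ∀ j, (nm (t.2.1 j) : ℝ) ≤ Y ^ C₁ ∧ (nm (t.2.2.1 j) : ℝ) ≤ Y ^ C₁ ∧
        (nm (t.2.2.2 j) : ℝ) ≤ Y ^ C₁) →
      (∀ t ∈ J, Unz L (Tt (T t.1) t.2.1 t.2.2.1 t.2.2.2) (Φ t) ∧
        ∃ (τ : Gal(Ω/K)) (c : ℂ), c ≠ 1 ∧ ∀ z, gg v (Φ t τ * z) = c * gg v z) →
      ∑ t ∈ J, (nr (Tt (T t.1) t.2.1 t.2.2.1 t.2.2.2))⁻¹ * (x t.1)⁻¹ *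
        Gx Fr (Tt (T t.1) t.2.1 t.2.2.1 t.2.2.2) (x t.1) (Φ t) (gg v) ≤
          Real.log Y ^ (-(A₁ : ℝ)) := by
  obtain ⟨C₂, hC₂⟩ : ∃ C₂ : ℕ, C₂ = C₁ + 3 * (m + 1) := ⟨_, rfl⟩
  obtain ⟨C₃, hC₃⟩ : ∃ C₃ : ℕ, C₃ = C₁ * (3 * m + 4) + C₂ + (C₂ + C₁ + C₂ * (m + 1) * 3) :=
    ⟨_, rfl⟩
  obtain ⟨Y₀, hY₀⟩ := hG C₃ A₁ ε hε
  refine ⟨max Y₀ (Real.exp (Real.exp 1)), fun Y hY => ?_⟩
  have hY0 : Y₀ ≤ Y := (le_max_left _ _).trans hY
  have hYe : Real.exp (Real.exp 1) ≤ Y := (le_max_right _ _).trans hY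
  have hYpos : 0 < Y := (Real.exp_pos _).trans_le hYe
  have hlog : Real.exp 1 ≤ Real.log Y := by
    rw [Real.le_log_iff_exp_le hYpos]
    exact hYe
  have hlogpos : 0 < Real.log Y := (Real.exp_pos _).trans_le hlog
  have hll : 1 ≤ Real.log (Real.log Y) := by
    rw [Real.le_log_iff_exp_le hlogpos]
    exact hlog
  have hlog1 : 1 ≤ Real.log Y := le_trans (by have := Real.add_one_le_exp (1 : ℝ); linarith) hlog
  have hY1 : 1 ≤ Y := by
    have := Real.add_one_le_exp (Real.exp 1)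
    have := Real.exp_pos 1
    linarith
  intro L Fr n Qg Lm _ _ _ _ _ v hnm hv hQ hb ι I T x hR hx J Φ hJ hΦ
  have hcard : ∀ t ∈ J, ((Tt (T t.1) t.2.1 t.2.2.1 t.2.2.2).card : ℝ) ≤
      C₂ * Real.log (Real.log Y) := by
    intro t ht
    have h1 : ((Tt (T t.1) t.2.1 t.2.2.1 t.2.2.2).card : ℝ) ≤
        ((T t.1).card : ℝ) + 3 * (m + 1) := by
      have h2 := smc_card (T t.1) t.2.1 t.2.2.1 t.2.2.2
      have h3 : (Tt (T t.1) t.2.1 t.2.2.1 t.2.2.2).card ≤ (T t.1).card + 3 * (m + 1) := by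
        omega
      exact_mod_cast h3
    have h2 := hR.card t.1 (hJ t ht).1
    rw [hC₂]
    push_cast
    have h3 : (3 * ((m : ℝ) + 1)) * 1 ≤ (3 * ((m : ℝ) + 1)) * Real.log (Real.log Y) :=
      mul_le_mul_of_nonneg_left hll (by positivity)
    linarith
  have hYC : (1 : ℝ) ≤ Y ^ C₁ := one_le_pow₀ hY1
  refine hY₀ Y hY0 L Fr (ι × T3 K n) J
    (fun t => Tt (T t.1) t.2.1 t.2.2.1 t.2.2.2) (fun t => x t.1) ?_ ?_ ?_ n Qg Lm v hv hQ
    hb Φ hΦ
  · intro t ht
    refine ⟨?_, ?_⟩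
    · refine (smc_nr hYC (hR.nr t.1 (hJ t ht).1) (hJ t ht).2).trans ?_
      rw [← pow_mul, ← pow_add]
      refine pow_le_pow_right₀ hY1 ?_
      rw [hC₃]
      have h1 : C₁ * (3 * (n + 1)) ≤ C₁ * (3 * (m + 1)) := Nat.mul_le_mul_left _ (by omega)
      have h2 : C₁ * (3 * m + 4) = C₁ + C₁ * (3 * (m + 1)) := by ring
      omega
    · refine (hcard t ht).trans (mul_le_mul_of_nonneg_right ?_ (by linarith))
      rw [hC₃]
      exact_mod_cast (by omega : C₂ ≤ C₁ * (3 * m + 4) + C₂ + (C₂ + C₁ + C₂ * (m + 1) * 3))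
  · intro t ht
    refine ⟨(hx t.1 (hJ t ht).1).1, (hx t.1 (hJ t ht).1).2.trans (pow_le_pow_right₀ hY1 ?_)⟩
    rw [hC₃]
    have h1 : C₁ ≤ C₁ * (3 * m + 4) := Nat.le_mul_of_pos_right _ (by omega)
    omega
  · intro s
    rcases (J.filter fun t => Tt (T t.1) t.2.1 t.2.2.1 t.2.2.2 = s).eq_empty_or_nonempty with
      he | ⟨t, ht⟩
    · rw [he, Finset.card_empty, Nat.cast_zero]
      positivity
    · rw [Finset.mem_filter] at ht
      have hs : (s.card : ℝ) ≤ C₂ * Real.log (Real.log Y) := by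
        rw [← ht.2]
        exact hcard t ht.1
      have h2 := smc_two hlog1 hs
      have h3 : (s.card : ℝ) ≤ Real.log Y ^ C₂ := by
        refine le_trans ?_ h2
        exact_mod_cast Nat.lt_two_pow_self.le
      have h4 := smc_mult I T hR.mul J (fun t ht => (hJ t ht).1) s
      refine h4.trans ?_
      have h5 : ((s.card : ℝ) ^ (n + 1)) ^ 3 ≤ ((Real.log Y ^ C₂) ^ (m + 1)) ^ 3 := by
        refine pow_le_pow_left₀ (by positivity) ?_ 3
        refine (pow_le_pow_left₀ (by positivity) h3 (n + 1)).trans ?_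
        exact pow_le_pow_right₀ (one_le_pow₀ hlog1) (by omega)
      calc 2 ^ s.card * Real.log Y ^ C₁ * ((s.card : ℝ) ^ (n + 1)) ^ 3
          ≤ Real.log Y ^ C₂ * Real.log Y ^ C₁ * ((Real.log Y ^ C₂) ^ (m + 1)) ^ 3 := by
            refine mul_le_mul (mul_le_mul_of_nonneg_right h2 (by positivity)) h5 (by positivity)
              (by positivity)
        _ = Real.log Y ^ (C₂ + C₁ + C₂ * (m + 1) * 3) := by
            rw [← pow_mul (Real.log Y ^ C₂) (m + 1) 3, ← pow_mul (Real.log Y) C₂ ((m + 1) * 3), ← pow_add,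
              ← pow_add, mul_assoc]
        _ ≤ Real.log Y ^ C₃ := by
            refine pow_le_pow_right₀ hlog1 ?_
            rw [hC₃]
            omega

end H62.BM
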